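import Pool.Agent.T9h20.TC.Glob

/-!
# The smoothed real tau-conjecture, one deterministic product: the Rice inequality
-/

set_option autoImplicit false

open MeasureTheory Set
open scoped ENNReal NNReal

namespace Pool.Agent.T9h20.TC

open Pool.Agent.T9h20.TA (mon fn dfn IsSel sel mx gg ta hh kap upd PP mon_ne hasDerivAt_mon
  continuous_mon hasDerivAt_fn sel_unique mx_pos mon_le_mx abs_gg_le abs_gg_sel hh_sel fn_eq
  dfn_eq dfn_div continuous_mx deriv_own isSel_sel fn_update SRice)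
open Pool.Agent.T9h20.TB (continuous_fn₂ continuous_dfn₂ upd_same upd_ne upd_upd inr_ne
  continuous_upd)

section asm1

variable {k q t : ℕ}

/-- Closed part of the region of the pivot `i` with dominant coefficient `s`. -/
def KK [NeZero t] (c0 K : ℝ) (be : Fin q → ℕ) (al : Fin k → Fin q → ℕ)
    (c a : Fin k ⊕ Fin q → Fin t → ℝ) (i : Fin k) (s : Fin t) :
    Set ((Fin k ⊕ Fin q → Fin t → ℝ) × ℝ) :=
  {p | ((∀ l, |mx (c (Sum.inl l)) (a (Sum.inl l)) p.2 * PR (al l) c a p.1 p.2| ≤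
      |mx (c (Sum.inl i)) (a (Sum.inl i)) p.2 * PR (al i) c a p.1 p.2|) ∧
      |c0 * PR be c a p.1 p.2| ≤
        K * |mx (c (Sum.inl i)) (a (Sum.inl i)) p.2 * PR (al i) c a p.1 p.2|) ∧
    ∀ r, |mon (c (Sum.inl i)) (a (Sum.inl i)) r p.2| ≤
      |mon (c (Sum.inl i)) (a (Sum.inl i)) s p.2|}

/-- Open part of the region. -/
def UU (al : Fin k → Fin q → ℕ) (c a : Fin k ⊕ Fin q → Fin t → ℝ) (i : Fin k) (s : Fin t) :
    Set ((Fin k ⊕ Fin q → Fin t → ℝ) × ℝ) :=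
  {p | PR (al i) c a p.1 p.2 ≠ 0 ∧
    ∀ r, r < s → |mon (c (Sum.inl i)) (a (Sum.inl i)) r p.2| <
      |mon (c (Sum.inl i)) (a (Sum.inl i)) s p.2|}

theorem isClosed_KK [NeZero t] (c0 K : ℝ) (be : Fin q → ℕ) (al : Fin k → Fin q → ℕ)
    (c a : Fin k ⊕ Fin q → Fin t → ℝ) (i : Fin k)
    (s : Fin t) : IsClosed (KK c0 K be al c a i s) := by
  have h1 : IsClosed {p : (Fin k ⊕ Fin q → Fin t → ℝ) × ℝ |
      ∀ l, |mx (c (Sum.inl l)) (a (Sum.inl l)) p.2 * PR (al l) c a p.1 p.2| ≤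
      |mx (c (Sum.inl i)) (a (Sum.inl i)) p.2 * PR (al i) c a p.1 p.2|} := by
    have : {p : (Fin k ⊕ Fin q → Fin t → ℝ) × ℝ |
        ∀ l, |mx (c (Sum.inl l)) (a (Sum.inl l)) p.2 * PR (al l) c a p.1 p.2| ≤
        |mx (c (Sum.inl i)) (a (Sum.inl i)) p.2 * PR (al i) c a p.1 p.2|} =
        ⋂ l, {p | |mx (c (Sum.inl l)) (a (Sum.inl l)) p.2 * PR (al l) c a p.1 p.2| ≤
        |mx (c (Sum.inl i)) (a (Sum.inl i)) p.2 * PR (al i) c a p.1 p.2|} := by
      ext p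
      simp
    rw [this]
    exact isClosed_iInter fun l => isClosed_le
      (((continuous_mx _ _).comp continuous_snd).mul (continuous_PR₂ (al l) c a)).abs
      (((continuous_mx _ _).comp continuous_snd).mul (continuous_PR₂ (al i) c a)).abs
  have h3 : IsClosed {p : (Fin k ⊕ Fin q → Fin t → ℝ) × ℝ |
      |c0 * PR be c a p.1 p.2| ≤
        K * |mx (c (Sum.inl i)) (a (Sum.inl i)) p.2 * PR (al i) c a p.1 p.2|} :=
    isClosed_le ((continuous_PR₂ be c a).const_mul c0).abs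
      ((((continuous_mx _ _).comp continuous_snd).mul (continuous_PR₂ (al i) c a)).abs.const_mul
        K)
  have h2 : IsClosed {p : (Fin k ⊕ Fin q → Fin t → ℝ) × ℝ |
      ∀ r, |mon (c (Sum.inl i)) (a (Sum.inl i)) r p.2| ≤
        |mon (c (Sum.inl i)) (a (Sum.inl i)) s p.2|} := by
    have : {p : (Fin k ⊕ Fin q → Fin t → ℝ) × ℝ |
        ∀ r, |mon (c (Sum.inl i)) (a (Sum.inl i)) r p.2| ≤
          |mon (c (Sum.inl i)) (a (Sum.inl i)) s p.2|} =
        ⋂ r, {p | |mon (c (Sum.inl i)) (a (Sum.inl i)) r p.2| ≤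
          |mon (c (Sum.inl i)) (a (Sum.inl i)) s p.2|} := by
      ext p
      simp
    rw [this]
    exact isClosed_iInter fun r => isClosed_le
      ((continuous_mon _ _ r).comp continuous_snd).abs
      ((continuous_mon _ _ s).comp continuous_snd).abs
  exact (h1.inter h3).inter h2

theorem isOpen_UU (al : Fin k → Fin q → ℕ) (c a : Fin k ⊕ Fin q → Fin t → ℝ) (i : Fin k)
    (s : Fin t) : IsOpen (UU al c a i s) := by
  have h1 : IsOpen {p : (Fin k ⊕ Fin q → Fin t → ℝ) × ℝ | PR (al i) c a p.1 p.2 ≠ 0} :=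
    isOpen_ne_fun (continuous_PR₂ (al i) c a) continuous_const
  have h2 : IsOpen {p : (Fin k ⊕ Fin q → Fin t → ℝ) × ℝ |
      ∀ r, r < s → |mon (c (Sum.inl i)) (a (Sum.inl i)) r p.2| <
        |mon (c (Sum.inl i)) (a (Sum.inl i)) s p.2|} := by
    have : {p : (Fin k ⊕ Fin q → Fin t → ℝ) × ℝ |
        ∀ r, r < s → |mon (c (Sum.inl i)) (a (Sum.inl i)) r p.2| <
          |mon (c (Sum.inl i)) (a (Sum.inl i)) s p.2|} =
        ⋂ r, {p | r < s → |mon (c (Sum.inl i)) (a (Sum.inl i)) r p.2| <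
          |mon (c (Sum.inl i)) (a (Sum.inl i)) s p.2|} := by
      ext p
      simp
    rw [this]
    refine isOpen_iInter_of_finite fun r => ?_
    by_cases hr : r < s
    · simp only [hr, true_imp_iff]
      exact isOpen_lt ((continuous_mon _ _ r).comp continuous_snd).abs
        ((continuous_mon _ _ s).comp continuous_snd).abs
    · simp [hr]
  exact h1.inter h2

/-- The coefficient of the dominant coefficient. -/
noncomputable def G1 (al : Fin k → Fin q → ℕ) (c a : Fin k ⊕ Fin q → Fin t → ℝ) (i : Fin k)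
    (s : Fin t) (v : Fin k ⊕ Fin q → Fin t → ℝ) (y : ℝ) : ℝ :=
  mon (c (Sum.inl i)) (a (Sum.inl i)) s y * PR (al i) c a v y

noncomputable def dG1 (al : Fin k → Fin q → ℕ) (c a : Fin k ⊕ Fin q → Fin t → ℝ) (i : Fin k)
    (s : Fin t) (v : Fin k ⊕ Fin q → Fin t → ℝ) (y : ℝ) : ℝ :=
  a (Sum.inl i) s * mon (c (Sum.inl i)) (a (Sum.inl i)) s y * PR (al i) c a v y +
    mon (c (Sum.inl i)) (a (Sum.inl i)) s y * dPR (al i) c a v y

/-- The rest. -/
noncomputable def R1 (c0 : ℝ) (be : Fin q → ℕ) (al : Fin k → Fin q → ℕ)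
    (c a : Fin k ⊕ Fin q → Fin t → ℝ) (i : Fin k) (s : Fin t)
    (v : Fin k ⊕ Fin q → Fin t → ℝ) (y : ℝ) : ℝ := FF c0 be al c a (upd v (Sum.inl i) s 0) y

noncomputable def dR1 (c0 : ℝ) (be : Fin q → ℕ) (al : Fin k → Fin q → ℕ)
    (c a : Fin k ⊕ Fin q → Fin t → ℝ) (i : Fin k) (s : Fin t)
    (v : Fin k ⊕ Fin q → Fin t → ℝ) (y : ℝ) : ℝ := dFF c0 be al c a (upd v (Sum.inl i) s 0) y

noncomputable def D1 (c0 : ℝ) (be : Fin q → ℕ) (al : Fin k → Fin q → ℕ)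
    (c a : Fin k ⊕ Fin q → Fin t → ℝ) (i : Fin k) (s : Fin t)
    (v : Fin k ⊕ Fin q → Fin t → ℝ) (y : ℝ) : ℝ :=
  (-(dR1 c0 be al c a i s v y) * G1 al c a i s v y -
    -(R1 c0 be al c a i s v y) * dG1 al c a i s v y) / (G1 al c a i s v y) ^ 2

theorem hasDerivAt_G1 (al : Fin k → Fin q → ℕ) (c a : Fin k ⊕ Fin q → Fin t → ℝ) (i : Fin k)
    (s : Fin t) (v : Fin k ⊕ Fin q → Fin t → ℝ) (y : ℝ) :
    HasDerivAt (G1 al c a i s v) (dG1 al c a i s v y) y :=
  (hasDerivAt_mon _ _ s y).mul (hasDerivAt_PR (al i) c a v y)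

theorem hasDerivAt_R1 (c0 : ℝ) (be : Fin q → ℕ) (al : Fin k → Fin q → ℕ)
    (c a : Fin k ⊕ Fin q → Fin t → ℝ) (i : Fin k) (s : Fin t)
    (v : Fin k ⊕ Fin q → Fin t → ℝ) (y : ℝ) :
    HasDerivAt (R1 c0 be al c a i s v) (dR1 c0 be al c a i s v y) y :=
  hasDerivAt_FF c0 be al c a _ y

theorem hasDerivAt_D1 (c0 : ℝ) (be : Fin q → ℕ) (al : Fin k → Fin q → ℕ)
    (c a : Fin k ⊕ Fin q → Fin t → ℝ) (i : Fin k) (s : Fin t)
    (v : Fin k ⊕ Fin q → Fin t → ℝ) (y : ℝ) (h : G1 al c a i s v y ≠ 0) :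
    HasDerivAt (fun z => -(R1 c0 be al c a i s v z) / G1 al c a i s v z)
      (D1 c0 be al c a i s v y) y :=
  (hasDerivAt_R1 c0 be al c a i s v y).neg.div (hasDerivAt_G1 al c a i s v y) h

theorem continuous_G1 (al : Fin k → Fin q → ℕ) (c a : Fin k ⊕ Fin q → Fin t → ℝ) (i : Fin k)
    (s : Fin t) : Continuous (Function.uncurry (G1 al c a i s)) :=
  ((continuous_mon _ _ s).comp continuous_snd).mul (continuous_PR₂ (al i) c a)

theorem continuous_dG1 (al : Fin k → Fin q → ℕ) (c a : Fin k ⊕ Fin q → Fin t → ℝ) (i : Fin k)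
    (s : Fin t) : Continuous (Function.uncurry (dG1 al c a i s)) :=
  ((((continuous_mon _ _ s).comp continuous_snd).const_mul _).mul
    (continuous_PR₂ (al i) c a)).add
    (((continuous_mon _ _ s).comp continuous_snd).mul (continuous_dPR₂ (al i) c a))

theorem continuous_R1 (c0 : ℝ) (be : Fin q → ℕ) (al : Fin k → Fin q → ℕ)
    (c a : Fin k ⊕ Fin q → Fin t → ℝ) (i : Fin k) (s : Fin t) :
    Continuous (Function.uncurry (R1 c0 be al c a i s)) := by
  have h : Continuous fun p : (Fin k ⊕ Fin q → Fin t → ℝ) × ℝ =>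
      (upd p.1 (Sum.inl i) s 0, p.2) :=
    ((continuous_upd (Sum.inl i) s 0).comp continuous_fst).prodMk continuous_snd
  have h2 := (continuous_FF₂ c0 be al c a).comp h
  have h3 : Function.uncurry (R1 c0 be al c a i s) =
    (fun p : (Fin k ⊕ Fin q → Fin t → ℝ) × ℝ => FF c0 be al c a p.1 p.2) ∘
      fun p => (upd p.1 (Sum.inl i) s 0, p.2) := by
    funext p
    rfl
  rw [h3]
  exact h2

theorem continuous_dR1 (c0 : ℝ) (be : Fin q → ℕ) (al : Fin k → Fin q → ℕ)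
    (c a : Fin k ⊕ Fin q → Fin t → ℝ) (i : Fin k) (s : Fin t) :
    Continuous (Function.uncurry (dR1 c0 be al c a i s)) := by
  have h : Continuous fun p : (Fin k ⊕ Fin q → Fin t → ℝ) × ℝ =>
      (upd p.1 (Sum.inl i) s 0, p.2) :=
    ((continuous_upd (Sum.inl i) s 0).comp continuous_fst).prodMk continuous_snd
  have h2 := (continuous_dFF₂ c0 be al c a).comp h
  have h3 : Function.uncurry (dR1 c0 be al c a i s) =
    (fun p : (Fin k ⊕ Fin q → Fin t → ℝ) × ℝ => dFF c0 be al c a p.1 p.2) ∘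
      fun p => (upd p.1 (Sum.inl i) s 0, p.2) := by
    funext p
    rfl
  rw [h3]
  exact h2

theorem measurable_D1 (c0 : ℝ) (be : Fin q → ℕ) (al : Fin k → Fin q → ℕ)
    (c a : Fin k ⊕ Fin q → Fin t → ℝ) (i : Fin k) (s : Fin t) :
    Measurable (Function.uncurry (D1 c0 be al c a i s)) := by
  have h1 := (continuous_G1 al c a i s).measurable
  have h2 := (continuous_dG1 al c a i s).measurable
  have h3 := (continuous_R1 c0 be al c a i s).measurable
  have h4 := (continuous_dR1 c0 be al c a i s).measurable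
  exact (((h4.neg).mul h1).sub ((h3.neg).mul h2)).div (h1.pow_const 2)

theorem FF_split (c0 : ℝ) (be : Fin q → ℕ) (al : Fin k → Fin q → ℕ)
    (c a : Fin k ⊕ Fin q → Fin t → ℝ) (i : Fin k) (s : Fin t)
    (v : Fin k ⊕ Fin q → Fin t → ℝ) (y : ℝ) :
    v (Sum.inl i) s * G1 al c a i s v y + R1 c0 be al c a i s v y = FF c0 be al c a v y := by
  unfold G1 R1
  rw [FF_upd]
  ring

theorem G1_upd (al : Fin k → Fin q → ℕ) (c a : Fin k ⊕ Fin q → Fin t → ℝ) (i : Fin k)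
    (s : Fin t) (v : Fin k ⊕ Fin q → Fin t → ℝ) (x : ℝ) :
    G1 al c a i s (upd v (Sum.inl i) s x) = G1 al c a i s v := by
  funext y
  unfold G1
  rw [PR_upd]

theorem dG1_upd (al : Fin k → Fin q → ℕ) (c a : Fin k ⊕ Fin q → Fin t → ℝ) (i : Fin k)
    (s : Fin t) (v : Fin k ⊕ Fin q → Fin t → ℝ) (x : ℝ) :
    dG1 al c a i s (upd v (Sum.inl i) s x) = dG1 al c a i s v := by
  funext y
  unfold dG1
  rw [PR_upd, dPR_upd]

theorem R1_upd (c0 : ℝ) (be : Fin q → ℕ) (al : Fin k → Fin q → ℕ)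
    (c a : Fin k ⊕ Fin q → Fin t → ℝ) (i : Fin k) (s : Fin t)
    (v : Fin k ⊕ Fin q → Fin t → ℝ) (x : ℝ) :
    R1 c0 be al c a i s (upd v (Sum.inl i) s x) = R1 c0 be al c a i s v := by
  funext y
  unfold R1
  rw [upd_upd]

theorem dR1_upd (c0 : ℝ) (be : Fin q → ℕ) (al : Fin k → Fin q → ℕ)
    (c a : Fin k ⊕ Fin q → Fin t → ℝ) (i : Fin k) (s : Fin t)
    (v : Fin k ⊕ Fin q → Fin t → ℝ) (x : ℝ) :
    dR1 c0 be al c a i s (upd v (Sum.inl i) s x) = dR1 c0 be al c a i s v := by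
  funext y
  unfold dR1
  rw [upd_upd]

theorem D1_upd (c0 : ℝ) (be : Fin q → ℕ) (al : Fin k → Fin q → ℕ)
    (c a : Fin k ⊕ Fin q → Fin t → ℝ) (i : Fin k) (s : Fin t)
    (v : Fin k ⊕ Fin q → Fin t → ℝ) (x : ℝ) :
    D1 c0 be al c a i s (upd v (Sum.inl i) s x) = D1 c0 be al c a i s v := by
  funext y
  unfold D1
  rw [G1_upd, dG1_upd, R1_upd, dR1_upd]

/-- Rice inequality for the pivot `i`, dominant coefficient `s`. -/
theorem rice1 (hR : SRice) [NeZero t] (c0 K : ℝ) (be : Fin q → ℕ) (al : Fin k → Fin q → ℕ)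
    (c a : Fin k ⊕ Fin q → Fin t → ℝ)
    (hc : ∀ b s, c b s ≠ 0) (μ : Fin k ⊕ Fin q → Fin t → Measure ℝ)
    [∀ b s, IsProbabilityMeasure (μ b s)] (B : ℝ≥0)
    (hB : ∀ b s, μ b s ≤ (B : ℝ≥0∞) • (volume : Measure ℝ)) (i : Fin k) (s : Fin t) :
    ∫⁻ v, (({y : ℝ | (v, y) ∈ KK c0 K be al c a i s ∧ (v, y) ∈ UU al c a i s ∧
        FF c0 be al c a v y = 0}.encard : ℕ∞) : ℝ≥0∞) ∂(PP μ) ≤
      B * ∫⁻ y, ∫⁻ v, (KK c0 K be al c a i s ∩ UU al c a i s).indicator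
        (fun p => ‖D1 c0 be al c a i s p.1 p.2‖ₑ) (v, y) ∂(PP μ) := by
  have h := hR (Fin k ⊕ Fin q) t μ B (Sum.inl i) s (hB _ _) (KK c0 K be al c a i s)
    (UU al c a i s) (G1 al c a i s) (R1 c0 be al c a i s) (D1 c0 be al c a i s)
    (isClosed_KK c0 K be al c a i s) (isOpen_UU al c a i s)
    (continuous_G1 al c a i s) (continuous_R1 c0 be al c a i s) (measurable_D1 c0 be al c a i s)
    (fun v x y => by simp only [KK, Set.mem_ofPred_eq, PR_upd])
    (fun v x y => by simp only [UU, Set.mem_ofPred_eq, PR_upd])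
    (G1_upd al c a i s) (R1_upd c0 be al c a i s) (D1_upd c0 be al c a i s)
    (fun v y _ hU => by
      have hG : G1 al c a i s v y ≠ 0 := mul_ne_zero (mon_ne (hc _ _) y) hU.1
      exact ⟨hG, hasDerivAt_D1 c0 be al c a i s v y hG⟩)
  simp only [FF_split] at h
  exact h

end asm1

end Pool.Agent.T9h20.TC
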