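import Pool.Agent.T9h20.TC.Asm1

/-!
# The smoothed real tau-conjecture, one deterministic product: the pointwise bound
-/

set_option autoImplicit false

open MeasureTheory Set
open scoped ENNReal NNReal

namespace Pool.Agent.T9h20.TC

open Pool.Agent.T9h20.TA (mon fn dfn IsSel sel mx gg ta hh kap upd mon_ne hasDerivAt_mon
  continuous_mon hasDerivAt_fn sel_unique mx_pos mon_le_mx abs_gg_le abs_gg_sel hh_sel fn_eq
  dfn_eq dfn_div continuous_mx SLogD deriv_own isSel_sel)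
open Pool.Agent.T9h20.TB (rho eta fn_rho upd_same upd_ne inr_ne)

section asm2

variable {k q t : ℕ}

/-- The shared factors with different powers. -/
def SS (x y : Fin q → ℕ) : Finset (Fin k ⊕ Fin q) :=
  (Finset.univ.filter fun j => x j ≠ y j).map Function.Embedding.inr

/-- The difference of the powers. -/
def pp (x y : Fin q → ℕ) : Fin k ⊕ Fin q → ℤ :=
  Sum.elim (fun _ => 0) fun j => (x j : ℤ) - y j

theorem sum_SS (x y : Fin q → ℕ) (F : Fin k ⊕ Fin q → ℝ) :
    ∑ b ∈ SS x y, (pp x y b : ℝ) * F b =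
      ∑ j, (x j : ℝ) * F (Sum.inr j) - ∑ j, (y j : ℝ) * F (Sum.inr j) := by
  unfold SS
  rw [Finset.sum_map]
  have h1 : ∀ j : Fin q, (pp x y (Function.Embedding.inr j : Fin k ⊕ Fin q) : ℝ) *
      F (Function.Embedding.inr j) = (x j : ℝ) * F (Sum.inr j) -
        (y j : ℝ) * F (Sum.inr j) := by
    intro j
    have : pp x y (Function.Embedding.inr j : Fin k ⊕ Fin q) = (x j : ℤ) - y j := rfl
    rw [this]
    push_cast
    simp only [Function.Embedding.inr_apply]
    ring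
  simp only [h1]
  rw [Finset.sum_filter_of_ne, Finset.sum_sub_distrib]
  intro j _ hj h0
  rw [h0, sub_self] at hj
  exact hj rfl

theorem prod_SS (x y : Fin q → ℕ) (F : Fin k ⊕ Fin q → ℝ)
    (hF : ∀ j, F (Sum.inr j) ≠ 0) :
    ∏ b ∈ SS x y, F b ^ pp x y b =
      (∏ j, F (Sum.inr j) ^ x j) / ∏ j, F (Sum.inr j) ^ y j := by
  unfold SS
  rw [Finset.prod_map]
  have h1 : ∀ j : Fin q, F (Function.Embedding.inr j) ^
      pp x y (Function.Embedding.inr j : Fin k ⊕ Fin q) =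
      F (Sum.inr j) ^ x j / F (Sum.inr j) ^ y j := by
    intro j
    have : pp x y (Function.Embedding.inr j : Fin k ⊕ Fin q) = (x j : ℤ) - y j := rfl
    rw [this]
    simp only [Function.Embedding.inr_apply]
    rw [zpow_sub₀ (hF j), zpow_natCast, zpow_natCast]
  simp only [h1]
  rw [Finset.prod_filter_of_ne, Finset.prod_div_distrib]
  intro j _ hj h0
  rw [h0, div_self (pow_ne_zero _ (hF j))] at hj
  exact hj rfl

variable [NeZero t]

/-- Quotient of the sizes of the products `l` and `i`. -/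
noncomputable def zz (al : Fin k → Fin q → ℕ) (c a : Fin k ⊕ Fin q → Fin t → ℝ) (l i : Fin k)
    (y : ℝ) : ℝ :=
  mx (c (Sum.inl l)) (a (Sum.inl l)) y / mx (c (Sum.inl i)) (a (Sum.inl i)) y *
    ∏ b ∈ SS (al l) (al i), mx (c b) (a b) y ^ pp (al l) (al i) b

/-- Difference of the slopes. -/
noncomputable def lam (al : Fin k → Fin q → ℕ) (c a : Fin k ⊕ Fin q → Fin t → ℝ) (l i : Fin k)
    (y : ℝ) : ℝ :=
  ta (c (Sum.inl l)) (a (Sum.inl l)) y - ta (c (Sum.inl i)) (a (Sum.inl i)) y +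
    ∑ b ∈ SS (al l) (al i), (pp (al l) (al i) b : ℝ) * ta (c b) (a b) y

/-- The normalised quotient. -/
noncomputable def ZZ (al : Fin k → Fin q → ℕ) (c a v : Fin k ⊕ Fin q → Fin t → ℝ) (l i : Fin k)
    (y : ℝ) : ℝ :=
  zz al c a l i y * ∏ b ∈ SS (al l) (al i), rho c a v y b ^ pp (al l) (al i) b

/-- The integrand of the piece (H'). -/
noncomputable def II (al : Fin k → Fin q → ℕ) (c a v : Fin k ⊕ Fin q → Fin t → ℝ) (l i : Fin k)
    (y : ℝ) : ℝ :=
  ZZ al c a v l i y * rho c a v y (Sum.inl l) *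
    (lam al c a l i y + eta c a v y (Sum.inl l) / rho c a v y (Sum.inl l) +
      ∑ b ∈ SS (al l) (al i), (pp (al l) (al i) b : ℝ) * (eta c a v y b / rho c a v y b))

/-- The same for the deterministic product. -/
noncomputable def z0 (c0 K : ℝ) (be : Fin q → ℕ) (al : Fin k → Fin q → ℕ)
    (c a : Fin k ⊕ Fin q → Fin t → ℝ) (i : Fin k) (y : ℝ) : ℝ :=
  |c0| / K / mx (c (Sum.inl i)) (a (Sum.inl i)) y *
    ∏ b ∈ SS be (al i), mx (c b) (a b) y ^ pp be (al i) b

noncomputable def lam0 (be : Fin q → ℕ) (al : Fin k → Fin q → ℕ)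
    (c a : Fin k ⊕ Fin q → Fin t → ℝ) (i : Fin k) (y : ℝ) : ℝ :=
  -ta (c (Sum.inl i)) (a (Sum.inl i)) y +
    ∑ b ∈ SS be (al i), (pp be (al i) b : ℝ) * ta (c b) (a b) y

noncomputable def Z0 (c0 K : ℝ) (be : Fin q → ℕ) (al : Fin k → Fin q → ℕ)
    (c a v : Fin k ⊕ Fin q → Fin t → ℝ) (i : Fin k) (y : ℝ) : ℝ :=
  z0 c0 K be al c a i y * ∏ b ∈ SS be (al i), rho c a v y b ^ pp be (al i) b

noncomputable def I0 (c0 K : ℝ) (be : Fin q → ℕ) (al : Fin k → Fin q → ℕ)
    (c a v : Fin k ⊕ Fin q → Fin t → ℝ) (i : Fin k) (y : ℝ) : ℝ :=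
  Z0 c0 K be al c a v i y * (lam0 be al c a i y +
      ∑ b ∈ SS be (al i), (pp be (al i) b : ℝ) * (eta c a v y b / rho c a v y b))

theorem zz_pos (al : Fin k → Fin q → ℕ) {c a : Fin k ⊕ Fin q → Fin t → ℝ}
    (hc : ∀ b s, c b s ≠ 0) (l i : Fin k) (y : ℝ) : 0 < zz al c a l i y := by
  unfold zz
  refine mul_pos (div_pos (mx_pos (hc _) y) (mx_pos (hc _) y)) (Finset.prod_pos fun b _ => ?_)
  exact zpow_pos (mx_pos (hc _) y) _

theorem z0_pos {c0 K : ℝ} (hc0 : c0 ≠ 0) (hK : 0 < K) (be : Fin q → ℕ)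
    (al : Fin k → Fin q → ℕ) {c a : Fin k ⊕ Fin q → Fin t → ℝ}
    (hc : ∀ b s, c b s ≠ 0) (i : Fin k) (y : ℝ) : 0 < z0 c0 K be al c a i y := by
  unfold z0
  refine mul_pos (div_pos (div_pos (abs_pos.mpr hc0) hK) (mx_pos (hc _) y))
    (Finset.prod_pos fun b _ => ?_)
  exact zpow_pos (mx_pos (hc _) y) _

theorem prod_eq (x z : Fin q → ℕ) {c a : Fin k ⊕ Fin q → Fin t → ℝ}
    (hc : ∀ b s, c b s ≠ 0) {v : Fin k ⊕ Fin q → Fin t → ℝ} {y : ℝ}
    (hn : ∀ b, fn (c b) (a b) (v b) y ≠ 0) :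
    (∏ b ∈ SS x z, mx (c b) (a b) y ^ pp x z b) *
      ∏ b ∈ SS x z, rho c a v y b ^ pp x z b = PR x c a v y / PR z c a v y := by
  rw [← Finset.prod_mul_distrib]
  have h2 : ∀ b ∈ SS x z, mx (c b) (a b) y ^ pp x z b * rho c a v y b ^ pp x z b =
      fn (c b) (a b) (v b) y ^ pp x z b := by
    intro b _
    rw [fn_rho hc, mul_zpow]
  rw [Finset.prod_congr rfl h2, prod_SS x z (fun b => fn (c b) (a b) (v b) y)
    fun j => hn _]
  rfl

theorem ZZ_eq (al : Fin k → Fin q → ℕ) {c a : Fin k ⊕ Fin q → Fin t → ℝ}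
    (hc : ∀ b s, c b s ≠ 0) {v : Fin k ⊕ Fin q → Fin t → ℝ} {y : ℝ}
    (hn : ∀ b, fn (c b) (a b) (v b) y ≠ 0) (l i : Fin k) :
    ZZ al c a v l i y = (mx (c (Sum.inl l)) (a (Sum.inl l)) y * PR (al l) c a v y) /
      (mx (c (Sum.inl i)) (a (Sum.inl i)) y * PR (al i) c a v y) := by
  unfold ZZ zz
  rw [mul_assoc, prod_eq (al l) (al i) hc hn, div_mul_div_comm]

theorem Z0_eq (c0 K : ℝ) (be : Fin q → ℕ) (al : Fin k → Fin q → ℕ)
    {c a : Fin k ⊕ Fin q → Fin t → ℝ}
    (hc : ∀ b s, c b s ≠ 0) {v : Fin k ⊕ Fin q → Fin t → ℝ} {y : ℝ}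
    (hn : ∀ b, fn (c b) (a b) (v b) y ≠ 0) (i : Fin k) :
    Z0 c0 K be al c a v i y = (|c0| * PR be c a v y) /
      (K * (mx (c (Sum.inl i)) (a (Sum.inl i)) y * PR (al i) c a v y)) := by
  unfold Z0 z0
  rw [mul_assoc, prod_eq be (al i) hc hn, div_div, div_mul_div_comm, mul_assoc K]

theorem abs_ZZ_le {c0 K : ℝ} {be : Fin q → ℕ} (al : Fin k → Fin q → ℕ)
    {c a : Fin k ⊕ Fin q → Fin t → ℝ}
    (hc : ∀ b s, c b s ≠ 0) {v : Fin k ⊕ Fin q → Fin t → ℝ} {y : ℝ} {i : Fin k} {s : Fin t}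
    (hK : (v, y) ∈ KK c0 K be al c a i s) (hn : ∀ b, fn (c b) (a b) (v b) y ≠ 0)
    (l : Fin k) : |ZZ al c a v l i y| ≤ 1 := by
  rw [ZZ_eq al hc hn, abs_div]
  exact div_le_one_of_le₀ (hK.1.1 l) (abs_nonneg _)

theorem abs_Z0_le {c0 K : ℝ} (hK0 : 0 < K) {be : Fin q → ℕ} (al : Fin k → Fin q → ℕ)
    {c a : Fin k ⊕ Fin q → Fin t → ℝ}
    (hc : ∀ b s, c b s ≠ 0) {v : Fin k ⊕ Fin q → Fin t → ℝ} {y : ℝ} {i : Fin k} {s : Fin t}
    (hK : (v, y) ∈ KK c0 K be al c a i s) (hn : ∀ b, fn (c b) (a b) (v b) y ≠ 0) :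
    |Z0 c0 K be al c a v i y| ≤ 1 := by
  rw [Z0_eq c0 K be al hc hn, abs_div, abs_mul K, abs_of_pos hK0]
  refine div_le_one_of_le₀ ?_ (mul_nonneg hK0.le (abs_nonneg _))
  have h := hK.1.2
  rw [abs_mul] at h
  rw [abs_mul, abs_abs]
  exact h

theorem sel_of_mem {c0 K : ℝ} {be : Fin q → ℕ} {al : Fin k → Fin q → ℕ}
    {c a : Fin k ⊕ Fin q → Fin t → ℝ}
    {v : Fin k ⊕ Fin q → Fin t → ℝ} {y : ℝ} {i : Fin k} {s : Fin t}
    (hK : (v, y) ∈ KK c0 K be al c a i s) (hU : (v, y) ∈ UU al c a i s) :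
    sel (c (Sum.inl i)) (a (Sum.inl i)) y = s :=
  sel_unique ⟨hK.2, hU.2⟩

omit [NeZero t] in
/-- The logarithmic derivative of the shared part. -/
theorem dPR_div (x : Fin q → ℕ) {c a : Fin k ⊕ Fin q → Fin t → ℝ}
    {v : Fin k ⊕ Fin q → Fin t → ℝ} {y : ℝ} (hn : ∀ b, fn (c b) (a b) (v b) y ≠ 0) :
    dPR x c a v y / PR x c a v y =
      ∑ j, (x j : ℝ) * (dfn (c (Sum.inr j)) (a (Sum.inr j)) (v (Sum.inr j)) y /
        fn (c (Sum.inr j)) (a (Sum.inr j)) (v (Sum.inr j)) y) := by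
  classical
  unfold dPR
  rw [Finset.sum_div]
  refine Finset.sum_congr rfl fun j _ => ?_
  have h1 : PR x c a v y = (∏ r ∈ Finset.univ.erase j,
      fn (c (Sum.inr r)) (a (Sum.inr r)) (v (Sum.inr r)) y ^ x r) *
      fn (c (Sum.inr j)) (a (Sum.inr j)) (v (Sum.inr j)) y ^ x j := by
    unfold PR
    rw [Finset.prod_erase_mul _ _ (Finset.mem_univ j)]
  have h2 : (∏ r ∈ Finset.univ.erase j,
      fn (c (Sum.inr r)) (a (Sum.inr r)) (v (Sum.inr r)) y ^ x r) ≠ 0 :=
    Finset.prod_ne_zero_iff.mpr fun r _ => pow_ne_zero _ (hn _)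
  rw [h1, mul_div_mul_left _ _ h2]
  have hf := hn (Sum.inr j)
  rcases Nat.eq_zero_or_pos (x j) with h0 | h0
  · rw [h0]
    simp
  · obtain ⟨n, hn'⟩ : ∃ n, x j = n + 1 := ⟨x j - 1, by omega⟩
    rw [hn', Nat.add_sub_cancel, pow_succ]
    field_simp

/-- The main pointwise inequality. -/
theorem D1_le (hL : SLogD) {c0 K : ℝ} (hK0 : 0 < K) {be : Fin q → ℕ}
    {al : Fin k → Fin q → ℕ} {c a : Fin k ⊕ Fin q → Fin t → ℝ}
    (hc : ∀ b s, c b s ≠ 0)
    {v : Fin k ⊕ Fin q → Fin t → ℝ} {y : ℝ} {i : Fin k} {s : Fin t}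
    (hK : (v, y) ∈ KK c0 K be al c a i s) (hU : (v, y) ∈ UU al c a i s)
    (hn : ∀ b, fn (c b) (a b) (v b) y ≠ 0) :
    ‖D1 c0 be al c a i s v y‖ₑ ≤ ENNReal.ofReal K * ‖I0 c0 K be al c a v i y‖ₑ +
      (‖eta c a v y (Sum.inl i)‖ₑ +
      ∑ l ∈ Finset.univ.erase i, ‖II al c a v l i y‖ₑ) := by
  have hs := sel_of_mem hK hU
  have hms := mon_ne (a := a (Sum.inl i)) (hc (Sum.inl i) s) y
  have hG : G1 al c a i s v y ≠ 0 := mul_ne_zero hms hU.1
  have hD := hasDerivAt_D1 c0 be al c a i s v y hG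
  have hP : ∀ x : Fin q → ℕ, PR x c a v y ≠ 0 := by
    intro x
    unfold PR
    exact Finset.prod_ne_zero_iff.mpr fun r _ => pow_ne_zero _ (hn _)
  -- the alternative expression
  set w : ℝ → ℝ := mon (c (Sum.inl i)) (a (Sum.inl i)) s with hw
  set qq : Fin k → ℝ → ℝ := fun l z => fn (c (Sum.inl l)) (a (Sum.inl l)) (v (Sum.inl l)) z *
    PR (al l) c a v z / (w z * PR (al i) c a v z) with hq
  set q0 : ℝ → ℝ := fun z => c0 * (1 * PR be c a v z / (w z * PR (al i) c a v z)) with hq0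
  set f0 : ℝ → ℝ := fn (c (Sum.inl i)) (a (Sum.inl i)) (Function.update (v (Sum.inl i)) s 0)
    with hf0
  have hq' : ∀ l, HasDerivAt (qq l) (qq l y *
      (dfn (c (Sum.inl l)) (a (Sum.inl l)) (v (Sum.inl l)) y /
      fn (c (Sum.inl l)) (a (Sum.inl l)) (v (Sum.inl l)) y +
      dPR (al l) c a v y / PR (al l) c a v y -
      (a (Sum.inl i) s * w y) / w y - dPR (al i) c a v y / PR (al i) c a v y)) y := by
    intro l
    have h := hL 1 (fun _ => PR (al l) c a v) (fun _ => PR (al i) c a v)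
      (fun _ => dPR (al l) c a v y) (fun _ => dPR (al i) c a v y)
      (fn (c (Sum.inl l)) (a (Sum.inl l)) (v (Sum.inl l))) w
      (dfn (c (Sum.inl l)) (a (Sum.inl l)) (v (Sum.inl l)) y)
      (a (Sum.inl i) s * w y) y (fun _ => hasDerivAt_PR (al l) c a v y)
      (fun _ => hasDerivAt_PR (al i) c a v y)
      (hasDerivAt_fn _ _ _ y) (hasDerivAt_mon _ _ s y) (fun _ => hP (al l))
      (fun _ => hP (al i)) (hn _) hms
    simp only [Finset.univ_unique, Finset.prod_singleton, Finset.sum_singleton] at h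
    exact h
  have hq0' : HasDerivAt q0 (c0 * (1 * PR be c a v y / (w y * PR (al i) c a v y) *
      (0 / 1 + dPR be c a v y / PR be c a v y -
      (a (Sum.inl i) s * w y) / w y - dPR (al i) c a v y / PR (al i) c a v y))) y := by
    have h := hL 1 (fun _ => PR be c a v) (fun _ => PR (al i) c a v)
      (fun _ => dPR be c a v y) (fun _ => dPR (al i) c a v y)
      (fun _ => 1) w 0
      (a (Sum.inl i) s * w y) y (fun _ => hasDerivAt_PR be c a v y)
      (fun _ => hasDerivAt_PR (al i) c a v y)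
      (hasDerivAt_const y 1) (hasDerivAt_mon _ _ s y) (fun _ => hP be)
      (fun _ => hP (al i)) one_ne_zero hms
    simp only [Finset.univ_unique, Finset.prod_singleton, Finset.sum_singleton] at h
    exact h.const_mul c0
  have hf' : HasDerivAt (fun z => f0 z / w z)
      ((dfn (c (Sum.inl i)) (a (Sum.inl i)) (Function.update (v (Sum.inl i)) s 0) y * w y -
        f0 y * (a (Sum.inl i) s * w y)) / w y ^ 2) y :=
    (hasDerivAt_fn _ _ _ y).div (hasDerivAt_mon _ _ s y) hms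
  have halt := (hq0'.add (hf'.add (HasDerivAt.fun_sum (u := Finset.univ.erase i)
    fun l _ => hq' l))).neg
  have heq : (fun z => -(R1 c0 be al c a i s v z) / G1 al c a i s v z) =ᶠ[nhds y]
      -(q0 + ((fun z => f0 z / w z) + fun z => ∑ l ∈ Finset.univ.erase i, qq l z)) := by
    have hev : ∀ᶠ z in nhds y, PR (al i) c a v z ≠ 0 :=
      (hasDerivAt_PR (al i) c a v y).continuousAt.eventually_ne hU.1
    filter_upwards [hev] with z hz
    have hwz : w z ≠ 0 := mon_ne (hc (Sum.inl i) s) z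
    have h1 : R1 c0 be al c a i s v z = c0 * PR be c a v z + (f0 z * PR (al i) c a v z +
        ∑ l ∈ Finset.univ.erase i, fn (c (Sum.inl l)) (a (Sum.inl l)) (v (Sum.inl l)) z *
          PR (al l) c a v z) := by
      unfold R1 FF
      rw [← Finset.add_sum_erase _ _ (Finset.mem_univ i), PR_upd, PR_upd, upd_same]
      congr 1
      congr 1
      refine Finset.sum_congr rfl fun l hl => ?_
      have hne : (Sum.inl l : Fin k ⊕ Fin q) ≠ Sum.inl i := by
        intro h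
        exact Finset.ne_of_mem_erase hl (Sum.inl.inj h)
      rw [upd_ne hne, PR_upd]
    have h2 : G1 al c a i s v z = w z * PR (al i) c a v z := rfl
    rw [h1, h2]
    simp only [Pi.neg_apply, Pi.add_apply, hq, hq0]
    rw [neg_div, add_div, add_div, mul_div_mul_right _ _ hz, Finset.sum_div, one_mul,
      mul_div_assoc]
  have hun := hD.unique (halt.congr_of_eventuallyEq heq)
  rw [hun, enorm_neg]
  have hta : a (Sum.inl i) s * w y / w y = ta (c (Sum.inl i)) (a (Sum.inl i)) y := by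
    rw [mul_div_assoc, div_self hms, mul_one]
    unfold ta
    rw [hs]
  have hdiv : ∀ b, dfn (c b) (a b) (v b) y / fn (c b) (a b) (v b) y =
      ta (c b) (a b) y + eta c a v y b / rho c a v y b := fun b => dfn_div (hc b) (hn b)
  have hwy : |w y| = mx (c (Sum.inl i)) (a (Sum.inl i)) y := by
    unfold mx
    rw [hs]
  have hmi : |mx (c (Sum.inl i)) (a (Sum.inl i)) y| = mx (c (Sum.inl i)) (a (Sum.inl i)) y :=
    abs_of_pos (mx_pos (hc (Sum.inl i)) y)
  refine (enorm_add_le _ _).trans ?_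
  refine add_le_add ?_ ((enorm_add_le _ _).trans (add_le_add ?_ ?_))
  · -- the deterministic product
    have hbr : 0 / 1 + dPR be c a v y / PR be c a v y -
        (a (Sum.inl i) s * w y) / w y - dPR (al i) c a v y / PR (al i) c a v y =
        lam0 be al c a i y +
          ∑ b ∈ SS be (al i), (pp be (al i) b : ℝ) * (eta c a v y b / rho c a v y b) := by
      have e1 := sum_SS be (al i) fun b => ta (c b) (a b) y
      have e2 := sum_SS be (al i) fun b => eta c a v y b / rho c a v y b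
      rw [dPR_div be hn, dPR_div (al i) hn, hta]
      simp only [hdiv]
      unfold lam0
      rw [e1, e2]
      simp only [mul_add, Finset.sum_add_distrib]
      ring
    rw [hbr]
    unfold I0
    have hqy : |c0 * (1 * PR be c a v y / (w y * PR (al i) c a v y))| =
        |K * Z0 c0 K be al c a v i y| := by
      rw [Z0_eq c0 K be al hc hn, one_mul, abs_mul, abs_div, abs_mul (w y), hwy, abs_mul K,
        abs_div, abs_mul |c0|, abs_abs, abs_mul K, abs_of_pos hK0, abs_mul, hmi]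
      have hm0 := (mx_pos (a := a (Sum.inl i)) (hc (Sum.inl i)) y).ne'
      have hp0 : |PR (al i) c a v y| ≠ 0 := abs_ne_zero.mpr (hP _)
      field_simp
    rw [← mul_assoc, enorm_mul, enorm_mul (Z0 c0 K be al c a v i y), ← mul_assoc]
    gcongr
    rw [← Real.enorm_abs, hqy, Real.enorm_abs, enorm_mul, Real.enorm_of_nonneg hK0.le]
  · exact (deriv_own (hc (Sum.inl i)) (v (Sum.inl i)) y s hs).le
  · refine (enorm_sum_le _ _).trans (Finset.sum_le_sum fun l _ => ?_)
    -- compare with `II`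
    have hbr : dfn (c (Sum.inl l)) (a (Sum.inl l)) (v (Sum.inl l)) y /
          fn (c (Sum.inl l)) (a (Sum.inl l)) (v (Sum.inl l)) y +
        dPR (al l) c a v y / PR (al l) c a v y -
        (a (Sum.inl i) s * w y) / w y - dPR (al i) c a v y / PR (al i) c a v y =
        lam al c a l i y + eta c a v y (Sum.inl l) / rho c a v y (Sum.inl l) +
          ∑ b ∈ SS (al l) (al i), (pp (al l) (al i) b : ℝ) *
            (eta c a v y b / rho c a v y b) := by
      have e1 := sum_SS (al l) (al i) fun b => ta (c b) (a b) y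
      have e2 := sum_SS (al l) (al i) fun b => eta c a v y b / rho c a v y b
      rw [dPR_div (al l) hn, dPR_div (al i) hn, hta]
      simp only [hdiv]
      unfold lam
      rw [e1, e2]
      simp only [mul_add, Finset.sum_add_distrib]
      ring
    rw [hbr]
    unfold II
    have hqy : |qq l y| = |ZZ al c a v l i y * rho c a v y (Sum.inl l)| := by
      have e1 : |qq l y| = |mx (c (Sum.inl l)) (a (Sum.inl l)) y * rho c a v y (Sum.inl l)| *
          |PR (al l) c a v y| /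
          (mx (c (Sum.inl i)) (a (Sum.inl i)) y * |PR (al i) c a v y|) := by
        have : qq l y = fn (c (Sum.inl l)) (a (Sum.inl l)) (v (Sum.inl l)) y *
          PR (al l) c a v y / (w y * PR (al i) c a v y) := rfl
        rw [this, fn_rho hc, abs_div, abs_mul (w y), hwy, abs_mul]
      have e2 : |ZZ al c a v l i y * rho c a v y (Sum.inl l)| =
          |mx (c (Sum.inl l)) (a (Sum.inl l)) y| * |PR (al l) c a v y| /
          (mx (c (Sum.inl i)) (a (Sum.inl i)) y * |PR (al i) c a v y|) *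
            |rho c a v y (Sum.inl l)| := by
        rw [ZZ_eq al hc hn, abs_mul, abs_div, abs_mul,
          abs_mul (mx (c (Sum.inl i)) (a (Sum.inl i)) y), hmi]
      rw [e1, e2, abs_mul]
      ring
    rw [enorm_mul, enorm_mul]
    gcongr
    rw [← Real.enorm_abs, hqy, Real.enorm_abs]

end asm2

end Pool.Agent.T9h20.TC
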