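import Pool.Agent.T9h20.TC.Asm2

/-!
# The smoothed real tau-conjecture, one deterministic product: the expectation for fixed `y`
-/

set_option autoImplicit false

open MeasureTheory Set
open scoped ENNReal NNReal

namespace Pool.Agent.T9h20.TC

open Pool.Agent.T9h20.TA (mon fn dfn IsSel sel mx gg ta hh kap upd PP mon_ne hasDerivAt_mon
  continuous_mon hasDerivAt_fn sel_unique mx_pos mon_le_mx abs_gg_le abs_gg_sel hh_sel fn_eq
  dfn_eq dfn_div continuous_mx SLogD deriv_own isSel_sel SMom SFixP SFixQ SKap SDrift ae_block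
  lintegral_lin th th_pos th_le measurable_kap measurable_ta isProb_PP)
open Pool.Agent.T9h20.TB (rho eta fn_rho upd_same upd_ne inr_ne ae_ne measurable_rho
  measurable_eta measurable_zpow lintegral_eta th_mul_le')

section asm3

variable {k q t : ℕ}

/-! ### The powers -/

theorem pos_part_le {n : ℕ} {x y : Fin q → ℕ} (hx : ∑ j, x j ≤ n) :
    ∑ b ∈ (SS x y : Finset (Fin k ⊕ Fin q)), max (pp x y b : ℝ) 0 ≤ n := by
  unfold SS
  rw [Finset.sum_map]
  have h1 : ∀ j : Fin q, max (pp x y (Function.Embedding.inr j : Fin k ⊕ Fin q) : ℝ) 0 ≤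
      x j := by
    intro j
    have : pp x y (Function.Embedding.inr j : Fin k ⊕ Fin q) = (x j : ℤ) - y j := rfl
    rw [this]
    push_cast
    refine max_le ?_ (Nat.cast_nonneg _)
    have : (0 : ℝ) ≤ y j := Nat.cast_nonneg _
    linarith
  calc ∑ j ∈ Finset.univ.filter fun j => x j ≠ y j,
        max (pp x y (Function.Embedding.inr j : Fin k ⊕ Fin q) : ℝ) 0
      ≤ ∑ j ∈ Finset.univ.filter fun j => x j ≠ y j, (x j : ℝ) :=
        Finset.sum_le_sum fun j _ => h1 j
    _ ≤ ∑ j, (x j : ℝ) := Finset.sum_le_sum_of_subset_of_nonneg (Finset.filter_subset _ _)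
        fun j _ _ => Nat.cast_nonneg _
    _ ≤ n := by exact_mod_cast hx

theorem neg_part_le {n : ℕ} {x y : Fin q → ℕ} (hy : ∑ j, y j ≤ n) :
    ∑ b ∈ (SS x y : Finset (Fin k ⊕ Fin q)), max (-(pp x y b : ℝ)) 0 ≤ n := by
  unfold SS
  rw [Finset.sum_map]
  have h1 : ∀ j : Fin q, max (-(pp x y (Function.Embedding.inr j : Fin k ⊕ Fin q) : ℝ)) 0 ≤
      y j := by
    intro j
    have : pp x y (Function.Embedding.inr j : Fin k ⊕ Fin q) = (x j : ℤ) - y j := rfl
    rw [this]
    push_cast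
    refine max_le ?_ (Nat.cast_nonneg _)
    have : (0 : ℝ) ≤ x j := Nat.cast_nonneg _
    linarith
  calc ∑ j ∈ Finset.univ.filter fun j => x j ≠ y j,
        max (-(pp x y (Function.Embedding.inr j : Fin k ⊕ Fin q) : ℝ)) 0
      ≤ ∑ j ∈ Finset.univ.filter fun j => x j ≠ y j, (y j : ℝ) :=
        Finset.sum_le_sum fun j _ => h1 j
    _ ≤ ∑ j, (y j : ℝ) := Finset.sum_le_sum_of_subset_of_nonneg (Finset.filter_subset _ _)
        fun j _ _ => Nat.cast_nonneg _
    _ ≤ n := by exact_mod_cast hy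

theorem card_SS_le {n1 n2 : ℕ} {x y : Fin q → ℕ} (hx : ∑ j, x j ≤ n1) (hy : ∑ j, y j ≤ n2) :
    (SS x y : Finset (Fin k ⊕ Fin q)).card ≤ n1 + n2 := by
  unfold SS
  rw [Finset.card_map]
  calc (Finset.univ.filter fun j => x j ≠ y j).card
      = ∑ j ∈ Finset.univ.filter fun j => x j ≠ y j, 1 := by
        rw [Finset.sum_const, smul_eq_mul, mul_one]
    _ ≤ ∑ j ∈ Finset.univ.filter fun j => x j ≠ y j, (x j + y j) := by
        refine Finset.sum_le_sum fun j hj => ?_
        have := (Finset.mem_filter.mp hj).2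
        omega
    _ ≤ ∑ j, (x j + y j) := Finset.sum_le_sum_of_subset (Finset.filter_subset _ _)
    _ ≤ n1 + n2 := by
        rw [Finset.sum_add_distrib]
        exact add_le_add hx hy

theorem th_mul_le1 {n : ℕ} {x : ℝ} (hx : x ≤ ((n + 1 : ℕ) : ℝ)) : th n * x ≤ 1 / 2 := by
  refine (mul_le_mul_of_nonneg_left hx (th_pos n).le).trans (le_of_eq ?_)
  unfold th
  push_cast
  have : (n : ℝ) + 1 ≠ 0 := by positivity
  field_simp

theorem inl_notMem (x y : Fin q → ℕ) (l : Fin k) : (Sum.inl l : Fin k ⊕ Fin q) ∉ SS x y := by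
  intro hm
  unfold SS at hm
  obtain ⟨j, -, hj⟩ := Finset.mem_map.mp hm
  exact inr_ne l j hj

variable [NeZero t]

theorem measurable_ZZ (al : Fin k → Fin q → ℕ) (c a : Fin k ⊕ Fin q → Fin t → ℝ) (l i : Fin k)
    (y : ℝ) : Measurable fun v => ZZ al c a v l i y := by
  unfold ZZ
  exact (Finset.measurable_fun_prod _ fun b _ =>
    (measurable_zpow _).comp (measurable_rho c a y b)).const_mul _

theorem measurable_II (al : Fin k → Fin q → ℕ) (c a : Fin k ⊕ Fin q → Fin t → ℝ) (l i : Fin k)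
    (y : ℝ) : Measurable fun v => II al c a v l i y := by
  unfold II
  refine ((measurable_ZZ al c a l i y).mul (measurable_rho c a y _)).mul ?_
  refine Measurable.add (Measurable.add measurable_const ?_) ?_
  · exact (measurable_eta c a y _).div (measurable_rho c a y _)
  · exact Finset.measurable_fun_sum _ fun b _ =>
      ((measurable_eta c a y b).div (measurable_rho c a y b)).const_mul _

theorem measurable_Z0 (c0 K : ℝ) (be : Fin q → ℕ) (al : Fin k → Fin q → ℕ)
    (c a : Fin k ⊕ Fin q → Fin t → ℝ) (i : Fin k) (y : ℝ) :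
    Measurable fun v => Z0 c0 K be al c a v i y := by
  unfold Z0
  exact (Finset.measurable_fun_prod _ fun b _ =>
    (measurable_zpow _).comp (measurable_rho c a y b)).const_mul _

theorem measurable_I0 (c0 K : ℝ) (be : Fin q → ℕ) (al : Fin k → Fin q → ℕ)
    (c a : Fin k ⊕ Fin q → Fin t → ℝ) (i : Fin k) (y : ℝ) :
    Measurable fun v => I0 c0 K be al c a v i y := by
  unfold I0
  refine (measurable_Z0 c0 K be al c a i y).mul ?_
  refine Measurable.add measurable_const ?_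
  exact Finset.measurable_fun_sum _ fun b _ =>
      ((measurable_eta c a y b).div (measurable_rho c a y b)).const_mul _

/-- The bound of the piece (H') for the pair `(l, i)`. -/
noncomputable def bd (n : ℕ) (al : Fin k → Fin q → ℕ) (c a : Fin k ⊕ Fin q → Fin t → ℝ)
    (A B : ℝ≥0) (l i : Fin k) (y : ℝ) : ℝ≥0∞ :=
  A * kap (c (Sum.inl l)) (a (Sum.inl l)) y +
    t * A * (ENNReal.ofReal (|lam al c a l i y| *
        Real.exp (-(th n * |Real.log (zz al c a l i y)|))) *
      ((1 + t * A) * (1 + 4 * B)) +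
      2 * A * B * (∑ b ∈ SS (al l) (al i), kap (c b) (a b) y))

/-- The bound of the piece (K). -/
noncomputable def bd0 (n : ℕ) (c0 K : ℝ) (be : Fin q → ℕ) (al : Fin k → Fin q → ℕ)
    (c a : Fin k ⊕ Fin q → Fin t → ℝ) (A B : ℝ≥0) (i : Fin k) (y : ℝ) : ℝ≥0∞ :=
  ENNReal.ofReal (|lam0 be al c a i y| *
      Real.exp (-(th n * |Real.log (z0 c0 K be al c a i y)|))) *
    ((1 + t * A) * (1 + 4 * B)) +
    2 * A * B * (∑ b ∈ SS be (al i), kap (c b) (a b) y)

theorem fixed (hH : SFixP) {n : ℕ} {al : Fin k → Fin q → ℕ} (hal : ∀ i, ∑ j, al i j ≤ n)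
    {c a : Fin k ⊕ Fin q → Fin t → ℝ} (hc : ∀ b s, c b s ≠ 0)
    (μ : Fin k ⊕ Fin q → Fin t → Measure ℝ)
    [∀ b s, IsProbabilityMeasure (μ b s)] (A B : ℝ≥0)
    (hB : ∀ b s, μ b s ≤ (B : ℝ≥0∞) • (volume : Measure ℝ))
    (hA : ∀ b s, ∫⁻ x, ‖x‖ₑ ∂(μ b s) ≤ A) (y : ℝ) (l i : Fin k) :
    ∫⁻ v, {v | |ZZ al c a v l i y| ≤ 1}.indicator (fun v => ‖II al c a v l i y‖ₑ) v ∂(PP μ) ≤
      bd n al c a A B l i y := by
  have h := hH (Fin k ⊕ Fin q) t μ A B hB hA (fun b s => gg (c b) (a b) s y)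
    (fun b s => hh (c b) (a b) s y) (fun b => sel (c b) (a b) y)
    (fun b => abs_gg_sel (hc b) y) (fun b => hh_sel (c b) (a b) y)
    (fun b s => abs_gg_le (hc b) s y) (Sum.inl l) (SS (al l) (al i)) (pp (al l) (al i))
    (inl_notMem _ _ l)
    (zz al c a l i y) (lam al c a l i y) (th n)
    (zz_pos al hc l i y) (th_pos n).le (th_le n)
    (th_mul_le' (pos_part_le (hal l))) (th_mul_le' (neg_part_le (hal i)))
  exact h

theorem fixed0 (hQ : SFixQ) {n : ℕ} {be : Fin q → ℕ} (hbe : ∑ j, be j ≤ n + 1)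
    {al : Fin k → Fin q → ℕ} (hal : ∀ i, ∑ j, al i j ≤ n) {c0 K : ℝ} (hc0 : c0 ≠ 0)
    (hK0 : 0 < K) {c a : Fin k ⊕ Fin q → Fin t → ℝ} (hc : ∀ b s, c b s ≠ 0)
    (μ : Fin k ⊕ Fin q → Fin t → Measure ℝ)
    [∀ b s, IsProbabilityMeasure (μ b s)] (A B : ℝ≥0)
    (hB : ∀ b s, μ b s ≤ (B : ℝ≥0∞) • (volume : Measure ℝ))
    (hA : ∀ b s, ∫⁻ x, ‖x‖ₑ ∂(μ b s) ≤ A) (y : ℝ) (i : Fin k) :
    ∫⁻ v, {v | |Z0 c0 K be al c a v i y| ≤ 1}.indicator
        (fun v => ‖I0 c0 K be al c a v i y‖ₑ) v ∂(PP μ) ≤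
      bd0 n c0 K be al c a A B i y := by
  have h := hQ (Fin k ⊕ Fin q) t μ A B hB hA (fun b s => gg (c b) (a b) s y)
    (fun b s => hh (c b) (a b) s y) (fun b => sel (c b) (a b) y)
    (fun b => abs_gg_sel (hc b) y) (fun b => hh_sel (c b) (a b) y)
    (fun b s => abs_gg_le (hc b) s y) (SS be (al i)) (pp be (al i))
    (z0 c0 K be al c a i y) (lam0 be al c a i y) (th n)
    (z0_pos hc0 hK0 be al hc i y) (th_pos n).le (th_le n)
    (th_mul_le1 (pos_part_le hbe)) (th_mul_le' (neg_part_le (hal i)))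
  exact h

theorem I0_zero (K : ℝ) (be : Fin q → ℕ) (al : Fin k → Fin q → ℕ)
    (c a v : Fin k ⊕ Fin q → Fin t → ℝ) (i : Fin k) (y : ℝ) :
    I0 0 K be al c a v i y = 0 := by
  unfold I0 Z0 z0
  simp

/-- The expectation for fixed `y`, pivot `i`. -/
theorem fix1 (hH : SFixP) (hQ : SFixQ) (hL : SLogD) (hM : SMom) {n : ℕ} {be : Fin q → ℕ}
    (hbe : ∑ j, be j ≤ n + 1) {al : Fin k → Fin q → ℕ}
    (hal : ∀ i, ∑ j, al i j ≤ n) (c0 : ℝ) {K : ℝ} (hK0 : 0 < K)
    {c a : Fin k ⊕ Fin q → Fin t → ℝ} (hc : ∀ b s, c b s ≠ 0)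
    (μ : Fin k ⊕ Fin q → Fin t → Measure ℝ)
    [∀ b s, IsProbabilityMeasure (μ b s)] (A B : ℝ≥0)
    (hB : ∀ b s, μ b s ≤ (B : ℝ≥0∞) • (volume : Measure ℝ))
    (hA : ∀ b s, ∫⁻ x, ‖x‖ₑ ∂(μ b s) ≤ A) (y : ℝ) (i : Fin k) :
    ∑ s, ∫⁻ v, (KK c0 K be al c a i s ∩ UU al c a i s).indicator
        (fun p => ‖D1 c0 be al c a i s p.1 p.2‖ₑ) (v, y) ∂(PP μ) ≤
      (if c0 = 0 then 0 else ENNReal.ofReal K * bd0 n c0 K be al c a A B i y) +
      (A * kap (c (Sum.inl i)) (a (Sum.inl i)) y +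
        ∑ l ∈ Finset.univ.erase i, bd n al c a A B l i y) := by
  classical
  set s0 := sel (c (Sum.inl i)) (a (Sum.inl i)) y with hs0
  have h1 : ∑ s, ∫⁻ v, (KK c0 K be al c a i s ∩ UU al c a i s).indicator
        (fun p => ‖D1 c0 be al c a i s p.1 p.2‖ₑ) (v, y) ∂(PP μ) =
        ∫⁻ v, (KK c0 K be al c a i s0 ∩ UU al c a i s0).indicator
          (fun p => ‖D1 c0 be al c a i s0 p.1 p.2‖ₑ) (v, y) ∂(PP μ) := by
    refine Finset.sum_eq_single s0 (fun s _ hs => ?_) (fun h => absurd (Finset.mem_univ _) h)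
    have : ∀ v : Fin k ⊕ Fin q → Fin t → ℝ, (KK c0 K be al c a i s ∩ UU al c a i s).indicator
        (fun p => ‖D1 c0 be al c a i s p.1 p.2‖ₑ) (v, y) = 0 := by
      intro v
      refine Set.indicator_of_notMem (fun hmem => hs ?_) _
      exact (sel_of_mem hmem.1 hmem.2).symm
    simp only [this, lintegral_zero]
  rw [h1]
  have mI : Measurable fun v => {v | |Z0 c0 K be al c a v i y| ≤ 1}.indicator
      (fun v => ‖I0 c0 K be al c a v i y‖ₑ) v := by
    refine Measurable.indicator (measurable_I0 c0 K be al c a i y).enorm ?_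
    exact measurableSet_le (measurable_Z0 c0 K be al c a i y).norm measurable_const
  calc ∫⁻ v, (KK c0 K be al c a i s0 ∩ UU al c a i s0).indicator
          (fun p => ‖D1 c0 be al c a i s0 p.1 p.2‖ₑ) (v, y) ∂(PP μ)
      ≤ ∫⁻ v, (ENNReal.ofReal K * {v | |Z0 c0 K be al c a v i y| ≤ 1}.indicator
            (fun v => ‖I0 c0 K be al c a v i y‖ₑ) v +
          (‖eta c a v y (Sum.inl i)‖ₑ + ∑ l ∈ Finset.univ.erase i,
          {v | |ZZ al c a v l i y| ≤ 1}.indicator (fun v => ‖II al c a v l i y‖ₑ) v))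
            ∂(PP μ) := by
        refine lintegral_mono_ae ?_
        filter_upwards [ae_ne hM hc μ A B hB hA y (a := a)] with v hv
        by_cases hmem : (v, y) ∈ KK c0 K be al c a i s0 ∩ UU al c a i s0
        · rw [Set.indicator_of_mem hmem]
          refine (D1_le hL hK0 hc hmem.1 hmem.2 hv).trans ?_
          refine add_le_add ?_ (add_le_add le_rfl (Finset.sum_le_sum fun l _ => ?_))
          · rw [Set.indicator_of_mem]
            exact abs_Z0_le hK0 al hc hmem.1 hv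
          · rw [Set.indicator_of_mem]
            exact abs_ZZ_le al hc hmem.1 hv l
        · rw [Set.indicator_of_notMem hmem]
          exact zero_le
    _ = ENNReal.ofReal K * ∫⁻ v, {v | |Z0 c0 K be al c a v i y| ≤ 1}.indicator
            (fun v => ‖I0 c0 K be al c a v i y‖ₑ) v ∂(PP μ) +
          (∫⁻ v, ‖eta c a v y (Sum.inl i)‖ₑ ∂(PP μ) + ∑ l ∈ Finset.univ.erase i,
          ∫⁻ v, {v | |ZZ al c a v l i y| ≤ 1}.indicator
            (fun v => ‖II al c a v l i y‖ₑ) v ∂(PP μ)) := by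
        rw [lintegral_add_left (mI.const_mul _), lintegral_const_mul _ mI,
          lintegral_add_left (measurable_eta c a y _).enorm, lintegral_finsetSum]
        intro l _
        refine Measurable.indicator (measurable_II al c a l i y).enorm ?_
        exact measurableSet_le (measurable_ZZ al c a l i y).norm measurable_const
    _ ≤ (if c0 = 0 then 0 else ENNReal.ofReal K * bd0 n c0 K be al c a A B i y) +
          (A * kap (c (Sum.inl i)) (a (Sum.inl i)) y +
          ∑ l ∈ Finset.univ.erase i, bd n al c a A B l i y) := by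
        refine add_le_add ?_
          (add_le_add (lintegral_eta μ A hA _ y) (Finset.sum_le_sum fun l _ => ?_))
        · split_ifs with hc0
          · subst hc0
            simp only [I0_zero, enorm_zero, Set.indicator_zero, lintegral_zero, mul_zero]
            exact le_rfl
          · gcongr
            exact fixed0 hQ hbe hal hc0 hK0 hc μ A B hB hA y i
        · exact fixed hH hal hc μ A B hB hA y l i

end asm3

end Pool.Agent.T9h20.TC
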