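import Pool.Agent.T9h20.TC.Asm3

/-!
# The smoothed real tau-conjecture, one deterministic product: integration, covering
-/

set_option autoImplicit false

open MeasureTheory Set
open scoped ENNReal NNReal

namespace Pool.Agent.T9h20.TC

open Pool.Agent.T9h20.TA (mon fn dfn IsSel sel mx gg ta hh kap upd PP mon_ne hasDerivAt_mon
  continuous_mon hasDerivAt_fn sel_unique mx_pos mon_le_mx abs_gg_le abs_gg_sel hh_sel fn_eq
  dfn_eq dfn_div continuous_mx SLogD deriv_own isSel_sel SMom SFixP SFixQ SKap SDrift SMeas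
  SRice lintegral_lin th th_pos th_le measurable_kap measurable_ta isProb_PP bd2
  sum_lintegral_le encard_iUnion_le')
open Pool.Agent.T9h20.TB (rho eta fn_rho upd_same upd_ne inr_ne ae_ne measurable_rho
  measurable_eta measurable_zpow lintegral_eta th_mul_le' drift_set split_lin J0 card_J0_le K0
  U0 piv0 measurable_count0)

/-! ### Scaling of one block -/

section scale

variable {t : ℕ} [NeZero t]

theorem sel_scale (c a : Fin t → ℝ) (κ : ℝ) (hκ : 0 < κ) (y : ℝ) :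
    sel (fun s => κ * c s) a y = sel c a y := by
  refine sel_unique ?_
  have h := isSel_sel c a y
  have e : ∀ s, |mon (fun s => κ * c s) a s y| = κ * |mon c a s y| := by
    intro s
    unfold mon
    rw [mul_assoc, abs_mul, abs_of_pos hκ]
  refine ⟨fun r => ?_, fun r hr => ?_⟩
  · rw [e, e]
    exact mul_le_mul_of_nonneg_left (h.1 r) hκ.le
  · rw [e, e]
    exact mul_lt_mul_of_pos_left (h.2 r hr) hκ

theorem ta_scale (c a : Fin t → ℝ) (κ : ℝ) (hκ : 0 < κ) (y : ℝ) :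
    ta (fun s => κ * c s) a y = ta c a y := by
  unfold ta
  rw [sel_scale c a κ hκ]

theorem mx_scale (c a : Fin t → ℝ) (κ : ℝ) (hκ : 0 < κ) (y : ℝ) :
    mx (fun s => κ * c s) a y = κ * mx c a y := by
  unfold mx
  rw [sel_scale c a κ hκ]
  unfold mon
  rw [mul_assoc, abs_mul, abs_of_pos hκ]

/-- The drift integral with an additive constant. -/
theorem drift_const (hG : SDrift) {β : Type} {c a : β → Fin t → ℝ} (hc : ∀ b s, c b s ≠ 0)
    (S : Finset β) (e : β → ℝ) (b1 : β) (hb1 : b1 ∈ S) (he : e b1 = -1) (C θ : ℝ)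
    (hθ : 0 < θ) :
    ∫⁻ y, ENNReal.ofReal (|∑ b ∈ S, e b * ta (c b) (a b) y| *
      Real.exp (-(θ * |C + ∑ b ∈ S, e b * Real.log (mx (c b) (a b) y)|))) ≤
      ENNReal.ofReal ((S.card * (t : ℝ) ^ 2 + 1) * (2 / θ)) := by
  classical
  set κ : β → ℝ := fun b => Real.exp (if b = b1 then -C else 0) with hκ
  have hκ0 : ∀ b, 0 < κ b := fun b => Real.exp_pos _
  have h := drift_set hG (c := fun b s => κ b * c b s) (a := a)
    (fun b s => mul_ne_zero (hκ0 b).ne' (hc b s)) S e θ hθ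
  have e1 : ∀ b y, ta (fun s => κ b * c b s) (a b) y = ta (c b) (a b) y := fun b y =>
    ta_scale (c b) (a b) (κ b) (hκ0 b) y
  have e2 : ∀ b y, Real.log (mx (fun s => κ b * c b s) (a b) y) =
      (if b = b1 then -C else 0) + Real.log (mx (c b) (a b) y) := by
    intro b y
    rw [mx_scale (c b) (a b) (κ b) (hκ0 b) y,
      Real.log_mul (hκ0 b).ne' (mx_pos (hc b) y).ne', hκ, Real.log_exp]
  have e3 : ∀ y, ∑ b ∈ S, e b * ((if b = b1 then -C else 0) + Real.log (mx (c b) (a b) y)) =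
      C + ∑ b ∈ S, e b * Real.log (mx (c b) (a b) y) := by
    intro y
    simp only [mul_add, Finset.sum_add_distrib]
    congr 1
    rw [Finset.sum_eq_single_of_mem b1 hb1]
    · rw [if_pos rfl, he]
      ring
    · intro b _ hb
      rw [if_neg hb, mul_zero]
  simp only [e1, e2, e3] at h
  exact h

end scale

section asm4

variable {k q t : ℕ}

/-! ### The weights -/

noncomputable def ww (x y : Fin q → ℕ) (l i : Fin k) : Fin k ⊕ Fin q → ℝ :=
  Sum.elim (fun r => (if r = l then 1 else 0) - (if r = i then 1 else 0))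
    fun j => (x j : ℝ) - y j

theorem sum_ww (x y : Fin q → ℕ) {l i : Fin k} (hli : l ≠ i)
    (F : Fin k ⊕ Fin q → ℝ) :
    ∑ b ∈ insert (Sum.inl l) (insert (Sum.inl i) (SS x y)), ww x y l i b * F b =
      F (Sum.inl l) - F (Sum.inl i) + ∑ b ∈ SS x y, (pp x y b : ℝ) * F b := by
  have h1 : (Sum.inl l : Fin k ⊕ Fin q) ∉ insert (Sum.inl i) (SS x y) := by
    intro hm
    rcases Finset.mem_insert.mp hm with h | h
    · exact hli (Sum.inl.inj h)
    · exact inl_notMem x y l h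
  rw [Finset.sum_insert h1, Finset.sum_insert (inl_notMem x y i)]
  have h2 : ww x y l i (Sum.inl l) = 1 := by
    simp [ww, hli]
  have h3 : ww x y l i (Sum.inl i) = -1 := by
    simp [ww, hli.symm]
  have h4 : ∀ b ∈ SS x y, ww x y l i b * F b = (pp x y b : ℝ) * F b := by
    intro b hb
    unfold SS at hb
    obtain ⟨j, -, rfl⟩ := Finset.mem_map.mp hb
    congr 1
    simp [ww, pp]
  rw [h2, h3, Finset.sum_congr rfl h4]
  ring

noncomputable def w0 (x y : Fin q → ℕ) : Fin k ⊕ Fin q → ℝ :=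
  Sum.elim (fun _ => -1) fun j => (x j : ℝ) - y j

theorem sum_w0 (x y : Fin q → ℕ) (i : Fin k) (F : Fin k ⊕ Fin q → ℝ) :
    ∑ b ∈ insert (Sum.inl i) (SS x y), w0 x y b * F b =
      -F (Sum.inl i) + ∑ b ∈ SS x y, (pp x y b : ℝ) * F b := by
  rw [Finset.sum_insert (inl_notMem x y i)]
  have h4 : ∀ b ∈ (SS x y : Finset (Fin k ⊕ Fin q)), w0 x y b * F b =
      (pp x y b : ℝ) * F b := by
    intro b hb
    unfold SS at hb
    obtain ⟨j, -, rfl⟩ := Finset.mem_map.mp hb
    congr 1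
    simp [w0, pp]
  rw [Finset.sum_congr rfl h4]
  congr 1
  simp [w0]

variable [NeZero t]

theorem two_div_th (n : ℕ) : (2 : ℝ) / th n = 4 * ((n : ℝ) + 1) := by
  unfold th
  field_simp
  ring

theorem drift (hG : SDrift) {n : ℕ} {al : Fin k → Fin q → ℕ} (hal : ∀ i, ∑ j, al i j ≤ n)
    {c a : Fin k ⊕ Fin q → Fin t → ℝ} (hc : ∀ b s, c b s ≠ 0)
    (l i : Fin k) (hli : l ≠ i) :
    ∫⁻ y, ENNReal.ofReal (|lam al c a l i y| *
      Real.exp (-(th n * |Real.log (zz al c a l i y)|))) ≤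
      ENNReal.ofReal ((2 * ((n : ℝ) + 1) * (t : ℝ) ^ 2 + 1) * (4 * ((n : ℝ) + 1))) := by
  have h := drift_set hG hc (a := a)
    (insert (Sum.inl l) (insert (Sum.inl i) (SS (al l) (al i)))) (ww (al l) (al i) l i)
    (th n) (th_pos n)
  have e1 : ∀ y, ∑ b ∈ insert (Sum.inl l) (insert (Sum.inl i) (SS (al l) (al i))),
      ww (al l) (al i) l i b * ta (c b) (a b) y = lam al c a l i y := fun y =>
    sum_ww (al l) (al i) hli fun b => ta (c b) (a b) y
  have e2 : ∀ y, ∑ b ∈ insert (Sum.inl l) (insert (Sum.inl i) (SS (al l) (al i))),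
      ww (al l) (al i) l i b * Real.log (mx (c b) (a b) y) =
        Real.log (zz al c a l i y) := by
    intro y
    rw [sum_ww (al l) (al i) hli fun b => Real.log (mx (c b) (a b) y)]
    unfold zz
    have hp : ∀ b, mx (c b) (a b) y ≠ 0 := fun b => (mx_pos (hc b) y).ne'
    rw [Real.log_mul (div_ne_zero (hp _) (hp _))
      (Finset.prod_ne_zero_iff.mpr fun b _ => zpow_ne_zero _ (hp b)),
      Real.log_div (hp _) (hp _), Real.log_prod (fun b _ => zpow_ne_zero _ (hp b))]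
    simp only [Real.log_zpow]
  simp only [e1, e2] at h
  refine h.trans (ENNReal.ofReal_le_ofReal ?_)
  rw [two_div_th]
  have h3 : ((insert (Sum.inl l) (insert (Sum.inl i) (SS (al l) (al i))) :
      Finset (Fin k ⊕ Fin q)).card : ℝ) ≤ 2 * ((n : ℝ) + 1) := by
    have h4 : (insert (Sum.inl l) (insert (Sum.inl i) (SS (al l) (al i))) :
      Finset (Fin k ⊕ Fin q)).card ≤ 2 * (n + 1) := by
      refine (Finset.card_insert_le _ _).trans ?_
      have h5 := Finset.card_insert_le (Sum.inl i : Fin k ⊕ Fin q) (SS (al l) (al i))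
      have h6 := card_SS_le (k := k) (hal l) (hal i)
      omega
    exact_mod_cast h4
  gcongr

theorem drift0 (hG : SDrift) {n : ℕ} {be : Fin q → ℕ} (hbe : ∑ j, be j ≤ n + 1)
    {al : Fin k → Fin q → ℕ} (hal : ∀ i, ∑ j, al i j ≤ n) {c0 K : ℝ} (hc0 : c0 ≠ 0)
    (hK0 : 0 < K)
    {c a : Fin k ⊕ Fin q → Fin t → ℝ} (hc : ∀ b s, c b s ≠ 0) (i : Fin k) :
    ∫⁻ y, ENNReal.ofReal (|lam0 be al c a i y| *
      Real.exp (-(th n * |Real.log (z0 c0 K be al c a i y)|))) ≤
      ENNReal.ofReal ((2 * ((n : ℝ) + 1) * (t : ℝ) ^ 2 + 1) * (4 * ((n : ℝ) + 1))) := by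
  have h := drift_const hG hc (a := a)
    (insert (Sum.inl i) (SS be (al i))) (w0 be (al i)) (Sum.inl i)
    (Finset.mem_insert_self _ _) rfl (Real.log (|c0| / K)) (th n) (th_pos n)
  have e1 : ∀ y, ∑ b ∈ insert (Sum.inl i) (SS be (al i)),
      w0 be (al i) b * ta (c b) (a b) y = lam0 be al c a i y := fun y =>
    sum_w0 be (al i) i fun b => ta (c b) (a b) y
  have e2 : ∀ y, Real.log (|c0| / K) + ∑ b ∈ insert (Sum.inl i) (SS be (al i)),
      w0 be (al i) b * Real.log (mx (c b) (a b) y) =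
        Real.log (z0 c0 K be al c a i y) := by
    intro y
    rw [sum_w0 be (al i) i fun b => Real.log (mx (c b) (a b) y)]
    unfold z0
    have hp : ∀ b, mx (c b) (a b) y ≠ 0 := fun b => (mx_pos (hc b) y).ne'
    have hcK : |c0| / K ≠ 0 := (div_pos (abs_pos.mpr hc0) hK0).ne'
    rw [Real.log_mul (div_ne_zero hcK (hp _))
      (Finset.prod_ne_zero_iff.mpr fun b _ => zpow_ne_zero _ (hp b)),
      Real.log_div hcK (hp _), Real.log_prod (fun b _ => zpow_ne_zero _ (hp b))]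
    simp only [Real.log_zpow]
    ring
  simp only [e1, e2] at h
  refine h.trans (ENNReal.ofReal_le_ofReal ?_)
  rw [two_div_th]
  have h3 : ((insert (Sum.inl i) (SS be (al i)) :
      Finset (Fin k ⊕ Fin q)).card : ℝ) ≤ 2 * ((n : ℝ) + 1) := by
    have h4 : (insert (Sum.inl i) (SS be (al i)) :
      Finset (Fin k ⊕ Fin q)).card ≤ 2 * (n + 1) := by
      refine (Finset.card_insert_le _ _).trans ?_
      have h6 := card_SS_le (k := k) hbe (hal i)
      omega
    exact_mod_cast h4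
  gcongr

theorem lintegral_sum_kap (hF : SKap) {n1 n2 : ℕ} {x z : Fin q → ℕ} (hx : ∑ j, x j ≤ n1)
    (hz : ∑ j, z j ≤ n2) {c a : Fin k ⊕ Fin q → Fin t → ℝ}
    (hc : ∀ b s, c b s ≠ 0) :
    ∫⁻ y, ∑ b ∈ SS x z, kap (c b) (a b) y ≤
      (n1 : ℝ≥0∞) * (t : ℝ≥0∞) ^ 2 + (n2 : ℝ≥0∞) * (t : ℝ≥0∞) ^ 2 := by
  rw [lintegral_finsetSum _ fun b _ => measurable_kap (c b) (a b)]
  refine (Finset.sum_le_sum fun b _ => hF t (c b) (a b) (hc b)).trans ?_
  rw [Finset.sum_const, nsmul_eq_mul, ← add_mul]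
  gcongr
  exact_mod_cast card_SS_le (k := k) hx hz

theorem measurable_prod_mx (x z : Fin q → ℕ) (c a : Fin k ⊕ Fin q → Fin t → ℝ) :
    Measurable fun y => ∏ b ∈ SS x z, mx (c b) (a b) y ^ pp x z b :=
  Finset.measurable_fun_prod _ fun b _ =>
    (measurable_zpow _).comp (continuous_mx _ _).measurable

theorem measurable_drift (n : ℕ) (al : Fin k → Fin q → ℕ) (c a : Fin k ⊕ Fin q → Fin t → ℝ)
    (l i : Fin k) : Measurable fun y => ENNReal.ofReal (|lam al c a l i y| *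
      Real.exp (-(th n * |Real.log (zz al c a l i y)|))) := by
  have h1 : Measurable (lam al c a l i) := by
    unfold lam
    exact ((measurable_ta _ _).sub (measurable_ta _ _)).add
      (Finset.measurable_fun_sum _ fun j _ => (measurable_ta _ _).const_mul _)
  have h2 : Measurable (zz al c a l i) := by
    unfold zz
    exact ((continuous_mx _ _).measurable.div (continuous_mx _ _).measurable).mul
      (measurable_prod_mx _ _ c a)
  refine ENNReal.measurable_ofReal.comp ?_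
  refine h1.norm.mul ?_
  exact Real.measurable_exp.comp (((Real.measurable_log.comp h2).norm.const_mul _).neg)

theorem measurable_drift0 (n : ℕ) (c0 K : ℝ) (be : Fin q → ℕ) (al : Fin k → Fin q → ℕ)
    (c a : Fin k ⊕ Fin q → Fin t → ℝ)
    (i : Fin k) : Measurable fun y => ENNReal.ofReal (|lam0 be al c a i y| *
      Real.exp (-(th n * |Real.log (z0 c0 K be al c a i y)|))) := by
  have h1 : Measurable (lam0 be al c a i) := by
    unfold lam0
    exact (measurable_ta _ _).neg.add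
      (Finset.measurable_fun_sum _ fun j _ => (measurable_ta _ _).const_mul _)
  have h2 : Measurable (z0 c0 K be al c a i) := by
    unfold z0
    exact (measurable_const.div (continuous_mx _ _).measurable).mul
      (measurable_prod_mx _ _ c a)
  refine ENNReal.measurable_ofReal.comp ?_
  refine h1.norm.mul ?_
  exact Real.measurable_exp.comp (((Real.measurable_log.comp h2).norm.const_mul _).neg)

theorem measurable_sum_kap (x z : Fin q → ℕ) (c a : Fin k ⊕ Fin q → Fin t → ℝ) :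
    Measurable fun y => ∑ b ∈ SS x z, kap (c b) (a b) y :=
  Finset.measurable_fun_sum _ fun b _ => measurable_kap (c b) (a b)

theorem measurable_bd (n : ℕ) (al : Fin k → Fin q → ℕ) (c a : Fin k ⊕ Fin q → Fin t → ℝ)
    (A B : ℝ≥0) (l i : Fin k) : Measurable (bd n al c a A B l i) := by
  unfold bd
  exact ((measurable_kap _ _).const_mul _).add ((((measurable_drift n al c a l i).mul_const
    _).add ((measurable_sum_kap _ _ c a).const_mul _)).const_mul _)

theorem measurable_bd0 (n : ℕ) (c0 K : ℝ) (be : Fin q → ℕ) (al : Fin k → Fin q → ℕ)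
    (c a : Fin k ⊕ Fin q → Fin t → ℝ)
    (A B : ℝ≥0) (i : Fin k) : Measurable (bd0 n c0 K be al c a A B i) := by
  unfold bd0
  exact ((measurable_drift0 n c0 K be al c a i).mul_const _).add
    ((measurable_sum_kap _ _ c a).const_mul _)

/-- The bound of the integral of `bd0`. -/
noncomputable def bd3 (m t : ℕ) (A B : ℝ≥0) : ℝ≥0∞ :=
  ENNReal.ofReal ((2 * ((m : ℝ) + 1) * (t : ℝ) ^ 2 + 1) * (4 * ((m : ℝ) + 1))) *
      ((1 + t * A) * (1 + 4 * B)) +
      2 * A * B * (((m + 1 : ℕ) : ℝ≥0∞) * (t : ℝ≥0∞) ^ 2 + (m : ℝ≥0∞) * (t : ℝ≥0∞) ^ 2)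

theorem lintegral_bd (hF : SKap) (hG : SDrift) {n : ℕ} {al : Fin k → Fin q → ℕ}
    (hal : ∀ i, ∑ j, al i j ≤ n) {c a : Fin k ⊕ Fin q → Fin t → ℝ}
    (hc : ∀ b s, c b s ≠ 0) (A B : ℝ≥0) (l i : Fin k) (hli : l ≠ i) :
    ∫⁻ y, bd n al c a A B l i y ≤ bd2 n t A B := by
  unfold bd bd2
  rw [split_lin _ _ _ (measurable_kap _ _) (measurable_drift n al c a l i)
    (measurable_sum_kap _ _ c a)]
  gcongr
  · exact hF t _ _ (hc _)
  · exact drift hG hal hc l i hli
  · exact lintegral_sum_kap hF (hal l) (hal i) hc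

theorem lintegral_bd0 (hF : SKap) (hG : SDrift) {n : ℕ} {be : Fin q → ℕ}
    (hbe : ∑ j, be j ≤ n + 1) {al : Fin k → Fin q → ℕ}
    (hal : ∀ i, ∑ j, al i j ≤ n) {c0 K : ℝ} (hc0 : c0 ≠ 0) (hK0 : 0 < K)
    {c a : Fin k ⊕ Fin q → Fin t → ℝ}
    (hc : ∀ b s, c b s ≠ 0) (A B : ℝ≥0) (i : Fin k) :
    ∫⁻ y, bd0 n c0 K be al c a A B i y ≤ bd3 n t A B := by
  unfold bd0 bd3
  rw [lintegral_add_left ((measurable_drift0 n c0 K be al c a i).mul_const _),
    lintegral_mul_const _ (measurable_drift0 n c0 K be al c a i),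
    lintegral_const_mul _ (measurable_sum_kap _ _ c a)]
  gcongr
  · exact drift0 hG hbe hal hc0 hK0 hc i
  · exact lintegral_sum_kap hF hbe (hal i) hc

theorem piv (hR : SRice) (hH : SFixP) (hQ : SFixQ) (hL : SLogD) (hM : SMom) (hF : SKap)
    (hG : SDrift) {n : ℕ} {be : Fin q → ℕ} (hbe : ∑ j, be j ≤ n + 1)
    {al : Fin k → Fin q → ℕ} (hal : ∀ i, ∑ j, al i j ≤ n) (c0 : ℝ) {K : ℝ} (hK0 : 0 < K)
    {c a : Fin k ⊕ Fin q → Fin t → ℝ} (hc : ∀ b s, c b s ≠ 0)
    (μ : Fin k ⊕ Fin q → Fin t → Measure ℝ)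
    [∀ b s, IsProbabilityMeasure (μ b s)] (A B : ℝ≥0)
    (hB : ∀ b s, μ b s ≤ (B : ℝ≥0∞) • (volume : Measure ℝ))
    (hA : ∀ b s, ∫⁻ x, ‖x‖ₑ ∂(μ b s) ≤ A) (i : Fin k) :
    ∑ s, ∫⁻ v, (({y : ℝ | (v, y) ∈ KK c0 K be al c a i s ∧ (v, y) ∈ UU al c a i s ∧
        FF c0 be al c a v y = 0}.encard : ℕ∞) : ℝ≥0∞) ∂(PP μ) ≤
      B * ((if c0 = 0 then 0 else ENNReal.ofReal K * bd3 n t A B) +
        (A * (t : ℝ≥0∞) ^ 2 + (k - 1 : ℕ) * bd2 n t A B)) := by
  classical
  have mif : Measurable fun y => (if c0 = 0 then (0 : ℝ≥0∞) else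
      ENNReal.ofReal K * bd0 n c0 K be al c a A B i y) := by
    by_cases hc0 : c0 = 0
    · simp only [hc0, if_true]
      exact measurable_const
    · simp only [if_neg hc0]
      exact (measurable_bd0 n c0 K be al c a A B i).const_mul _
  calc ∑ s, ∫⁻ v, (({y : ℝ | (v, y) ∈ KK c0 K be al c a i s ∧ (v, y) ∈ UU al c a i s ∧
        FF c0 be al c a v y = 0}.encard : ℕ∞) : ℝ≥0∞) ∂(PP μ)
      ≤ ∑ s, B * ∫⁻ y, ∫⁻ v, (KK c0 K be al c a i s ∩ UU al c a i s).indicator
          (fun p => ‖D1 c0 be al c a i s p.1 p.2‖ₑ) (v, y) ∂(PP μ) :=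
        Finset.sum_le_sum fun s _ => rice1 hR c0 K be al c a hc μ B hB i s
    _ = B * ∑ s, ∫⁻ y, ∫⁻ v, (KK c0 K be al c a i s ∩ UU al c a i s).indicator
          (fun p => ‖D1 c0 be al c a i s p.1 p.2‖ₑ) (v, y) ∂(PP μ) := by rw [Finset.mul_sum]
    _ ≤ B * ∫⁻ y, ∑ s, ∫⁻ v, (KK c0 K be al c a i s ∩ UU al c a i s).indicator
          (fun p => ‖D1 c0 be al c a i s p.1 p.2‖ₑ) (v, y) ∂(PP μ) := by
        gcongr
        exact sum_lintegral_le _ _
    _ ≤ B * ∫⁻ y, ((if c0 = 0 then 0 else ENNReal.ofReal K *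
            bd0 n c0 K be al c a A B i y) + (A * kap (c (Sum.inl i)) (a (Sum.inl i)) y +
          ∑ l ∈ Finset.univ.erase i, bd n al c a A B l i y)) := by
        gcongr with y
        exact fix1 hH hQ hL hM hbe hal c0 hK0 hc μ A B hB hA y i
    _ ≤ B * ((if c0 = 0 then 0 else ENNReal.ofReal K * bd3 n t A B) +
          (A * (t : ℝ≥0∞) ^ 2 + (k - 1 : ℕ) * bd2 n t A B)) := by
        gcongr
        rw [lintegral_add_left mif, lintegral_add_left ((measurable_kap _ _).const_mul _),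
          lintegral_const_mul _ (measurable_kap _ _),
          lintegral_finsetSum _ fun l _ => measurable_bd n al c a A B l i]
        refine add_le_add ?_ (add_le_add ?_ ?_)
        · by_cases hc0 : c0 = 0
          · simp [hc0]
          · simp only [if_neg hc0]
            rw [lintegral_const_mul _ (measurable_bd0 n c0 K be al c a A B i)]
            gcongr
            exact lintegral_bd0 hF hG hbe hal hc0 hK0 hc A B i
        · gcongr
          exact hF t _ _ (hc _)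
        · refine (Finset.sum_le_sum fun l hl => lintegral_bd hF hG hal hc A B l i
            (Finset.ne_of_mem_erase hl)).trans ?_
          rw [Finset.sum_const, Finset.card_erase_of_mem (Finset.mem_univ i),
            Finset.card_univ, Fintype.card_fin, nsmul_eq_mul]

/-! ### Covering -/

/-- The deterministic product is not much larger than the largest of the others at a zero. -/
def Good (c0 K : ℝ) (be : Fin q → ℕ) (al : Fin k → Fin q → ℕ)
    (c a v : Fin k ⊕ Fin q → Fin t → ℝ) : Prop :=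
  ∀ (y : ℝ) (i : Fin k), FF c0 be al c a v y = 0 →
    (∀ l, |mx (c (Sum.inl l)) (a (Sum.inl l)) y * PR (al l) c a v y| ≤
      |mx (c (Sum.inl i)) (a (Sum.inl i)) y * PR (al i) c a v y|) →
    |c0 * PR be c a v y| ≤ K * |mx (c (Sum.inl i)) (a (Sum.inl i)) y * PR (al i) c a v y|

theorem good_zero {K : ℝ} (hK : 0 ≤ K) (be : Fin q → ℕ) (al : Fin k → Fin q → ℕ)
    (c a v : Fin k ⊕ Fin q → Fin t → ℝ) : Good 0 K be al c a v := by
  intro y i _ _
  rw [zero_mul, abs_zero]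
  exact mul_nonneg hK (abs_nonneg _)

theorem good_of_bdd {A : ℝ} (hA : 0 ≤ A) (c0 : ℝ) (be : Fin q → ℕ) (al : Fin k → Fin q → ℕ)
    (c a v : Fin k ⊕ Fin q → Fin t → ℝ) (hv : ∀ b s, |v b s| ≤ A) :
    Good c0 (k * (t * A)) be al c a v := by
  intro y i h0 hi
  have h1 : c0 * PR be c a v y =
      -∑ l, fn (c (Sum.inl l)) (a (Sum.inl l)) (v (Sum.inl l)) y * PR (al l) c a v y := by
    have h2 := h0
    unfold FF at h2
    linarith
  have h3 : ∀ l, |fn (c (Sum.inl l)) (a (Sum.inl l)) (v (Sum.inl l)) y * PR (al l) c a v y| ≤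
      t * A * |mx (c (Sum.inl i)) (a (Sum.inl i)) y * PR (al i) c a v y| := by
    intro l
    have h4 : |fn (c (Sum.inl l)) (a (Sum.inl l)) (v (Sum.inl l)) y| ≤
        t * A * mx (c (Sum.inl l)) (a (Sum.inl l)) y := by
      unfold fn
      refine (Finset.abs_sum_le_sum_abs _ _).trans ?_
      calc ∑ s, |v (Sum.inl l) s * mon (c (Sum.inl l)) (a (Sum.inl l)) s y|
          ≤ ∑ _s : Fin t, A * mx (c (Sum.inl l)) (a (Sum.inl l)) y := by
            refine Finset.sum_le_sum fun s _ => ?_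
            rw [abs_mul]
            exact mul_le_mul (hv _ s) (mon_le_mx _ _ s y) (abs_nonneg _) hA
        _ = t * A * mx (c (Sum.inl l)) (a (Sum.inl l)) y := by
            rw [Finset.sum_const, Finset.card_univ, Fintype.card_fin, nsmul_eq_mul]
            ring
    have hm : 0 ≤ mx (c (Sum.inl l)) (a (Sum.inl l)) y := abs_nonneg _
    rw [abs_mul]
    calc |fn (c (Sum.inl l)) (a (Sum.inl l)) (v (Sum.inl l)) y| * |PR (al l) c a v y|
        ≤ t * A * mx (c (Sum.inl l)) (a (Sum.inl l)) y * |PR (al l) c a v y| := by gcongr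
      _ = t * A * |mx (c (Sum.inl l)) (a (Sum.inl l)) y * PR (al l) c a v y| := by
          rw [abs_mul, abs_of_nonneg hm]
          ring
      _ ≤ _ := by
          have := hi l
          gcongr
  rw [h1, abs_neg]
  refine (Finset.abs_sum_le_sum_abs _ _).trans ((Finset.sum_le_sum fun l _ => h3 l).trans ?_)
  rw [Finset.sum_const, Finset.card_univ, Fintype.card_fin, nsmul_eq_mul]
  exact le_of_eq (by ring)

theorem cover [NeZero k] {c0 K : ℝ} {be : Fin q → ℕ} {al : Fin k → Fin q → ℕ}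
    {c a : Fin k ⊕ Fin q → Fin t → ℝ}
    (hc : ∀ b s, c b s ≠ 0) {v : Fin k ⊕ Fin q → Fin t → ℝ} (hv : Good c0 K be al c a v) :
    {y : ℝ | FF c0 be al c a v y = 0} ⊆
      (⋃ i : Fin k, ⋃ s : Fin t, {y : ℝ | (v, y) ∈ KK c0 K be al c a i s ∧
        (v, y) ∈ UU al c a i s ∧ FF c0 be al c a v y = 0}) ∪
      ⋃ j : J0 al, ⋃ s : Fin t, {y : ℝ | (v, y) ∈ K0 c a (Sum.inr j) s ∧
        (v, y) ∈ U0 c a (Sum.inr j) s ∧
        fn (c (Sum.inr j)) (a (Sum.inr j)) (v (Sum.inr j)) y = 0} := by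
  classical
  intro y hy
  obtain ⟨i, -, hi⟩ := Finset.exists_max_image (Finset.univ : Finset (Fin k))
    (fun l => |mx (c (Sum.inl l)) (a (Sum.inl l)) y * PR (al l) c a v y|)
    ⟨0, Finset.mem_univ 0⟩
  by_cases h0 : PR (al i) c a v y = 0
  · right
    have h1 : PR (al 0) c a v y = 0 := by
      have h2 := hi 0 (Finset.mem_univ 0)
      simp only [h0, mul_zero, abs_zero] at h2
      have h3 := abs_nonpos_iff.mp h2
      exact (mul_eq_zero.mp h3).resolve_left (mx_pos (hc _) y).ne'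
    unfold PR at h1
    obtain ⟨j, -, hj⟩ := Finset.prod_eq_zero_iff.mp h1
    have hj0 : al 0 j ≠ 0 := by
      intro h4
      rw [h4, pow_zero] at hj
      exact one_ne_zero hj
    have hj1 := (pow_eq_zero_iff hj0).mp hj
    have hjm : j ∈ J0 al := Finset.mem_filter.mpr ⟨Finset.mem_univ j, hj0⟩
    refine Set.mem_iUnion.mpr ⟨⟨j, hjm⟩, Set.mem_iUnion.mpr
      ⟨sel (c (Sum.inr j)) (a (Sum.inr j)) y, ?_, ?_, hj1⟩⟩
    · exact (isSel_sel (c (Sum.inr j)) (a (Sum.inr j)) y).1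
    · exact (isSel_sel (c (Sum.inr j)) (a (Sum.inr j)) y).2
  · left
    refine Set.mem_iUnion.mpr ⟨i, Set.mem_iUnion.mpr
      ⟨sel (c (Sum.inl i)) (a (Sum.inl i)) y,
        ⟨⟨fun l => hi l (Finset.mem_univ l), hv y i hy fun l => hi l (Finset.mem_univ l)⟩, ?_⟩,
        ⟨h0, ?_⟩, hy⟩⟩
    · exact (isSel_sel (c (Sum.inl i)) (a (Sum.inl i)) y).1
    · exact (isSel_sel (c (Sum.inl i)) (a (Sum.inl i)) y).2

theorem count_le [NeZero k] {c0 K : ℝ} {be : Fin q → ℕ} {al : Fin k → Fin q → ℕ}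
    {c a : Fin k ⊕ Fin q → Fin t → ℝ}
    (hc : ∀ b s, c b s ≠ 0) {v : Fin k ⊕ Fin q → Fin t → ℝ} (hv : Good c0 K be al c a v) :
    (({y : ℝ | FF c0 be al c a v y = 0}.encard : ℕ∞) : ℝ≥0∞) ≤
      ∑ i, ∑ s, (({y : ℝ | (v, y) ∈ KK c0 K be al c a i s ∧ (v, y) ∈ UU al c a i s ∧
        FF c0 be al c a v y = 0}.encard : ℕ∞) : ℝ≥0∞) +
      ∑ j : J0 al, ∑ s, (({y : ℝ | (v, y) ∈ K0 c a (Sum.inr j) s ∧
        (v, y) ∈ U0 c a (Sum.inr j) s ∧
        fn (c (Sum.inr j)) (a (Sum.inr j)) (v (Sum.inr j)) y = 0}.encard : ℕ∞) : ℝ≥0∞) := by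
  refine (ENat.toENNReal_mono ((Set.encard_le_encard (cover hc hv)).trans
    (Set.encard_union_le _ _))).trans ?_
  rw [ENat.toENNReal_add]
  refine add_le_add ?_ ?_
  · refine (encard_iUnion_le' _).trans (Finset.sum_le_sum fun i _ => ?_)
    exact encard_iUnion_le' _
  · refine (encard_iUnion_le' _).trans (Finset.sum_le_sum fun j _ => ?_)
    exact encard_iUnion_le' _

theorem measurable_count1 (hMe : SMeas) (c0 K : ℝ) (be : Fin q → ℕ) (al : Fin k → Fin q → ℕ)
    (c a : Fin k ⊕ Fin q → Fin t → ℝ) (i : Fin k)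
    (s : Fin t) : Measurable fun v : Fin k ⊕ Fin q → Fin t → ℝ =>
      (({y : ℝ | (v, y) ∈ KK c0 K be al c a i s ∧ (v, y) ∈ UU al c a i s ∧
        FF c0 be al c a v y = 0}.encard : ℕ∞) : ℝ≥0∞) := by
  have h := hMe (Fin k ⊕ Fin q → Fin t → ℝ)
    (KK c0 K be al c a i s ∩ {p | FF c0 be al c a p.1 p.2 = 0}) (UU al c a i s)
    ((isClosed_KK c0 K be al c a i s).inter
      (isClosed_eq (continuous_FF₂ c0 be al c a) continuous_const))
    (isOpen_UU al c a i s)
  convert h using 5 with v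
  ext y
  simp only [Set.mem_inter_iff, Set.mem_ofPred_eq]
  tauto

/-- The bound for exponential sums, raw form. -/
theorem main_raw (hMe : SMeas) (hR : SRice) (hH : SFixP) (hQ : SFixQ) (hL : SLogD)
    (hM : SMom) (hF : SKap) (hG : SDrift) [NeZero k] {n : ℕ} {be : Fin q → ℕ}
    (hbe : ∑ j, be j ≤ n + 1) {al : Fin k → Fin q → ℕ} (hal : ∀ i, ∑ j, al i j ≤ n) (c0 : ℝ)
    {K : ℝ} (hK0 : 0 < K) {c a : Fin k ⊕ Fin q → Fin t → ℝ} (hc : ∀ b s, c b s ≠ 0)
    (μ : Fin k ⊕ Fin q → Fin t → Measure ℝ)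
    [∀ b s, IsProbabilityMeasure (μ b s)] (A B : ℝ≥0)
    (hB : ∀ b s, μ b s ≤ (B : ℝ≥0∞) • (volume : Measure ℝ))
    (hA : ∀ b s, ∫⁻ x, ‖x‖ₑ ∂(μ b s) ≤ A)
    (hgood : ∀ᵐ v ∂(PP μ), Good c0 K be al c a v) :
    ∫⁻ v, (({y : ℝ | FF c0 be al c a v y = 0}.encard : ℕ∞) : ℝ≥0∞) ∂(PP μ) ≤
      k * (B * ((if c0 = 0 then 0 else ENNReal.ofReal K * bd3 n t A B) +
        (A * (t : ℝ≥0∞) ^ 2 + (k - 1 : ℕ) * bd2 n t A B))) +
        n * (B * (A * (t : ℝ≥0∞) ^ 2)) := by
  refine (lintegral_mono_ae (hgood.mono fun v hv => count_le hc hv)).trans ?_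
  rw [lintegral_add_left, lintegral_finsetSum, lintegral_finsetSum]
  · refine add_le_add ?_ ?_
    · calc ∑ i, ∫⁻ v, ∑ s, (({y : ℝ | (v, y) ∈ KK c0 K be al c a i s ∧
            (v, y) ∈ UU al c a i s ∧
            FF c0 be al c a v y = 0}.encard : ℕ∞) : ℝ≥0∞) ∂(PP μ)
          ≤ ∑ _i : Fin k, B * ((if c0 = 0 then 0 else ENNReal.ofReal K * bd3 n t A B) +
            (A * (t : ℝ≥0∞) ^ 2 + (k - 1 : ℕ) * bd2 n t A B)) := by
            refine Finset.sum_le_sum fun i _ => ?_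
            rw [lintegral_finsetSum _ fun s _ => measurable_count1 hMe c0 K be al c a i s]
            exact piv hR hH hQ hL hM hF hG hbe hal c0 hK0 hc μ A B hB hA i
        _ = _ := by
            rw [Finset.sum_const, Finset.card_univ, Fintype.card_fin, nsmul_eq_mul]
    · calc ∑ j : J0 al, ∫⁻ v, ∑ s, (({y : ℝ | (v, y) ∈ K0 c a (Sum.inr j) s ∧
            (v, y) ∈ U0 c a (Sum.inr j) s ∧
            fn (c (Sum.inr j)) (a (Sum.inr j)) (v (Sum.inr j)) y = 0}.encard : ℕ∞) : ℝ≥0∞)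
            ∂(PP μ)
          ≤ ∑ _j : J0 al, B * (A * (t : ℝ≥0∞) ^ 2) := by
            refine Finset.sum_le_sum fun j _ => ?_
            rw [lintegral_finsetSum _ fun s _ => measurable_count0 hMe c a (Sum.inr j) s]
            exact piv0 hR hF hc μ A B hB hA (Sum.inr j)
        _ = ((J0 al).card : ℝ≥0∞) * (B * (A * (t : ℝ≥0∞) ^ 2)) := by
            rw [Finset.sum_const, Finset.card_univ, Fintype.card_coe, nsmul_eq_mul]
        _ ≤ n * (B * (A * (t : ℝ≥0∞) ^ 2)) := by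
            gcongr
            exact card_J0_le hal
  · intro j _
    exact Finset.measurable_fun_sum _ fun s _ => measurable_count0 hMe c a (Sum.inr j) s
  · intro i _
    exact Finset.measurable_fun_sum _ fun s _ => measurable_count1 hMe c0 K be al c a i s
  · exact Finset.measurable_fun_sum _ fun i _ => Finset.measurable_fun_sum _ fun s _ =>
      measurable_count1 hMe c0 K be al c a i s

end asm4

end Pool.Agent.T9h20.TC
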