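import Pool.Agent.T9h20.TC.Asm4
import Pool.Agent.T9h22.TA.HQ
import Pool.Agent.T9h53.TA.PhP

/-!
# The smoothed real tau-conjecture, one deterministic product: exponential sums, general laws
-/

set_option autoImplicit false

open MeasureTheory Set
open scoped ENNReal NNReal

namespace Pool.Agent.T9h20.TC

open Pool.Agent.T9h20.TA (mon fn PP bd2 isProb_PP num_bound num_real sRice' SFixP SFixQ)

section numbers

/-- The numerical bound with a deterministic product, real version. -/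
theorem num_real' (k M t n G : ℝ) (hk : 1 ≤ k) (hM : 1 ≤ M) (ht : 1 ≤ t) (hn0 : 0 ≤ n)
    (hn : n + 1 = M) (hG : 0 ≤ G) :
    k * (k * (t * G) * ((2 * M * t ^ 2 + 1) * (4 * M) * ((1 + t * G) * (1 + 4)) +
        2 * G * ((n + 1) * t ^ 2 + n * t ^ 2)) +
      (G * t ^ 2 + (k - 1) * (G * t ^ 2 + t * G * ((2 * M * t ^ 2 + 1) * (4 * M) *
      ((1 + t * G) * (1 + 4)) + 2 * G * (n * t ^ 2 + n * t ^ 2))))) + n * (G * t ^ 2) ≤
      132 * k ^ 2 * M ^ 2 * t ^ 3 * G * (1 + t * G) := by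
  have h1 := num_real k M t n G hk hM ht hn0 hn hG
  have hnM : n ≤ M := by linarith
  have ht2 : (1 : ℝ) ≤ t ^ 2 := one_le_pow₀ ht
  have hMt : 1 ≤ M * t ^ 2 := by nlinarith
  have hMM : M ≤ M ^ 2 := by nlinarith
  have h2 : k * (k * (t * G) * ((2 * M * t ^ 2 + 1) * (4 * M) * ((1 + t * G) * (1 + 4)) +
        2 * G * ((n + 1) * t ^ 2 + n * t ^ 2))) ≤
        64 * (k ^ 2 * M ^ 2 * t ^ 3 * G * (1 + t * G)) := by
    have e1 : (2 * M * t ^ 2 + 1) * (4 * M) ≤ 12 * M ^ 2 * t ^ 2 := by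
      have : (2 * M * t ^ 2 + 1) ≤ 3 * (M * t ^ 2) := by linarith
      calc (2 * M * t ^ 2 + 1) * (4 * M) ≤ 3 * (M * t ^ 2) * (4 * M) := by gcongr
        _ = 12 * M ^ 2 * t ^ 2 := by ring
    have e2 : G ≤ 1 + t * G := by nlinarith
    have e3 : (n + 1) * t ^ 2 + n * t ^ 2 ≤ 2 * (M ^ 2 * t ^ 2) := by
      have : (n + 1) * t ^ 2 + n * t ^ 2 = (2 * n + 1) * t ^ 2 := by ring
      rw [this, ← mul_assoc]
      gcongr
      linarith
    calc k * (k * (t * G) * ((2 * M * t ^ 2 + 1) * (4 * M) * ((1 + t * G) * (1 + 4)) +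
        2 * G * ((n + 1) * t ^ 2 + n * t ^ 2)))
        ≤ k * (k * (t * G) * (12 * M ^ 2 * t ^ 2 * ((1 + t * G) * (1 + 4)) +
          2 * (1 + t * G) * (2 * (M ^ 2 * t ^ 2)))) := by gcongr
      _ = 64 * (k ^ 2 * M ^ 2 * t ^ 3 * G * (1 + t * G)) := by ring
  have h3 : 0 ≤ k ^ 2 * M ^ 2 * t ^ 3 * G * (1 + t * G) := by positivity
  nlinarith [h1, h2, h3]

theorem num_bound' (k m t : ℕ) (hk : 1 ≤ k) (ht : 1 ≤ t) (G : ℝ≥0) :
    (k : ℝ≥0∞) * (((1 : ℝ≥0) : ℝ≥0∞) * (ENNReal.ofReal ((k : ℝ) * ((t : ℝ) * (G : ℝ))) *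
        bd3 m t G 1 + (G * (t : ℝ≥0∞) ^ 2 + (k - 1 : ℕ) * bd2 m t G 1))) +
        m * (((1 : ℝ≥0) : ℝ≥0∞) * (G * (t : ℝ≥0∞) ^ 2)) ≤
      132 * (k : ℝ≥0∞) ^ 2 * ((m : ℝ≥0∞) + 1) ^ 2 * (t : ℝ≥0∞) ^ 3 * G * (1 + t * G) := by
  have e : ENNReal.ofReal ((2 * ((m : ℝ) + 1) * (t : ℝ) ^ 2 + 1) * (4 * ((m : ℝ) + 1))) =
      (((2 * ((m : ℝ≥0) + 1) * (t : ℝ≥0) ^ 2 + 1) * (4 * ((m : ℝ≥0) + 1)) : ℝ≥0) : ℝ≥0∞) := by
    rw [← ENNReal.ofReal_coe_nnreal]
    push_cast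
    rfl
  have e' : ENNReal.ofReal ((k : ℝ) * ((t : ℝ) * (G : ℝ))) =
      (((k : ℝ≥0) * ((t : ℝ≥0) * G) : ℝ≥0) : ℝ≥0∞) := by
    rw [← ENNReal.ofReal_coe_nnreal]
    push_cast
    rfl
  have h := num_real' (k : ℝ) ((m : ℝ) + 1) (t : ℝ) (m : ℝ) (G : ℝ) (by exact_mod_cast hk)
    (by linarith [(Nat.cast_nonneg m : (0 : ℝ) ≤ m)]) (by exact_mod_cast ht) (Nat.cast_nonneg m)
    rfl G.2
  have h2 : (k : ℝ≥0) * ((k : ℝ≥0) * (t * G) * ((2 * ((m : ℝ≥0) + 1) * (t : ℝ≥0) ^ 2 + 1) *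
        (4 * ((m : ℝ≥0) + 1)) * ((1 + t * G) * (1 + 4)) +
        2 * G * ((m + 1) * (t : ℝ≥0) ^ 2 + m * (t : ℝ≥0) ^ 2)) +
      (G * (t : ℝ≥0) ^ 2 + ((k - 1 : ℕ) : ℝ≥0) * (G * (t : ℝ≥0) ^ 2 +
      t * G * ((2 * ((m : ℝ≥0) + 1) * (t : ℝ≥0) ^ 2 + 1) * (4 * ((m : ℝ≥0) + 1)) *
      ((1 + t * G) * (1 + 4)) + 2 * G * (m * (t : ℝ≥0) ^ 2 + m * (t : ℝ≥0) ^ 2))))) +
      m * (G * (t : ℝ≥0) ^ 2) ≤
      132 * (k : ℝ≥0) ^ 2 * ((m : ℝ≥0) + 1) ^ 2 * (t : ℝ≥0) ^ 3 * G * (1 + t * G) := by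
    have hk' : (((k - 1 : ℕ) : ℝ≥0) : ℝ) = (k : ℝ) - 1 := by
      rw [NNReal.coe_natCast, Nat.cast_sub hk, Nat.cast_one]
    rw [← NNReal.coe_le_coe]
    generalize ((k - 1 : ℕ) : ℝ≥0) = r at hk' ⊢
    push_cast
    rw [hk']
    exact h
  have h3 := ENNReal.coe_le_coe.mpr h2
  unfold bd2 bd3
  rw [e, e']
  push_cast at h3 ⊢
  simpa only [one_mul, mul_one] using h3

end numbers

section asm5

variable {k q t : ℕ}

theorem sFixP' : SFixP := Pool.Agent.T9h22.TA.sFixP Pool.Agent.T9h85.TA.sBlock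
  Pool.Agent.T9h67.TA.sMom Pool.Agent.T9h53.TA.sPhP

theorem sFixQ' : SFixQ := Pool.Agent.T9h22.TA.sFixQ Pool.Agent.T9h85.TA.sBlock
  Pool.Agent.T9h67.TA.sMom Pool.Agent.T9h53.TA.sPhP

theorem measurable_count (c0 : ℝ) (be : Fin q → ℕ) (al : Fin k → Fin q → ℕ)
    (c a : Fin k ⊕ Fin q → Fin t → ℝ) :
    Measurable fun v : Fin k ⊕ Fin q → Fin t → ℝ =>
      (({y : ℝ | FF c0 be al c a v y = 0}.encard : ℕ∞) : ℝ≥0∞) := by
  have h := Pool.Agent.T9h48.TA.sMeas (Fin k ⊕ Fin q → Fin t → ℝ)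
    {p | FF c0 be al c a p.1 p.2 = 0} Set.univ
    (isClosed_eq (continuous_FF₂ c0 be al c a) continuous_const) isOpen_univ
  convert h using 5 with v
  ext y
  simp

theorem FF_scale (c0 : ℝ) (be : Fin q → ℕ) (al : Fin k → Fin q → ℕ)
    {c a : Fin k ⊕ Fin q → Fin t → ℝ} (B : Fin k ⊕ Fin q → Fin t → ℝ)
    (hB : ∀ b s, B b s ≠ 0) (v : Fin k ⊕ Fin q → Fin t → ℝ) :
    FF c0 be al (fun b s => c b s / B b s) a (fun b s => B b s * v b s) =
      FF c0 be al c a v := by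
  have h : ∀ b y, fn (fun s => c b s / B b s) (a b) (fun s => B b s * v b s) y =
      fn (c b) (a b) (v b) y := by
    intro b y
    unfold fn mon
    refine Finset.sum_congr rfl fun s _ => ?_
    have := hB b s
    field_simp
  funext y
  unfold FF PR
  simp only [h]

/-- Scaling of the coefficients. -/
theorem scale_count (c0 : ℝ) (be : Fin q → ℕ) (al : Fin k → Fin q → ℕ)
    (c a : Fin k ⊕ Fin q → Fin t → ℝ) (ν : Fin k ⊕ Fin q → Fin t → Measure ℝ)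
    [∀ b s, IsProbabilityMeasure (ν b s)] (B : Fin k ⊕ Fin q → Fin t → ℝ)
    (hB : ∀ b s, B b s ≠ 0) :
    ∫⁻ v, (({y : ℝ | FF c0 be al c a v y = 0}.encard : ℕ∞) : ℝ≥0∞) ∂(PP ν) =
      ∫⁻ v, (({y : ℝ | FF c0 be al (fun b s => c b s / B b s) a v y = 0}.encard :
        ℕ∞) : ℝ≥0∞) ∂(PP fun b s => (ν b s).map fun x => B b s * x) := by
  have hfm : ∀ b s, Measurable fun x : ℝ => B b s * x := fun b s => measurable_const_mul _
  have hprob : ∀ b s, IsProbabilityMeasure ((ν b s).map fun x => B b s * x) := fun b s =>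
    Measure.isProbabilityMeasure_map (hfm b s).aemeasurable
  have hPP : (PP fun b s => (ν b s).map fun x => B b s * x) =
      (PP ν).map fun v b s => B b s * v b s := by
    unfold PP
    rw [Measure.pi_map_pi (μ := fun b => Measure.pi (ν b)) (f := fun b w s => B b s * w s)]
    · congr 1
      funext b
      rw [Measure.pi_map_pi fun s => (hfm b s).aemeasurable]
    · intro b
      exact (measurable_pi_lambda _ fun s => (hfm b s).comp (measurable_pi_apply s)).aemeasurable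
  rw [hPP, lintegral_map (measurable_count _ _ _ _ _)]
  · refine lintegral_congr fun v => ?_
    rw [FF_scale c0 be al B hB v]
  · exact measurable_pi_lambda _ fun b => measurable_pi_lambda _ fun s =>
      (hfm b s).comp ((measurable_pi_apply s).comp (measurable_pi_apply b))

/-- A density bound is positive. -/
theorem dens_pos {ν : Measure ℝ} [IsProbabilityMeasure ν] {B : ℝ≥0}
    (h : ν ≤ (B : ℝ≥0∞) • (volume : Measure ℝ)) : (B : ℝ) ≠ 0 := by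
  intro h0
  have h1 : B = 0 := by exact_mod_cast h0
  rw [h1, ENNReal.coe_zero, zero_smul] at h
  have h3 := h Set.univ
  rw [measure_univ] at h3
  simp at h3

/-- The scaled law has a density at most one. -/
theorem dens_scale {ν : Measure ℝ} [IsProbabilityMeasure ν] {B : ℝ≥0}
    (h : ν ≤ (B : ℝ≥0∞) • (volume : Measure ℝ)) :
    ν.map (fun x => (B : ℝ) * x) ≤ (volume : Measure ℝ) := by
  have hB0 := dens_pos h
  have h1 : ν.map (fun x => (B : ℝ) * x) ≤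
      ((B : ℝ≥0∞) • (volume : Measure ℝ)).map (fun x => (B : ℝ) * x) :=
    Measure.map_mono h (measurable_const_mul _)
  refine h1.trans (le_of_eq ?_)
  rw [Measure.map_smul]
  have h2 : Measure.map (fun x => (B : ℝ) * x) volume =
      ENNReal.ofReal |(B : ℝ)⁻¹| • volume := Real.map_volume_mul_left hB0
  rw [h2, smul_smul]
  have h3 : (B : ℝ≥0∞) * ENNReal.ofReal |(B : ℝ)⁻¹| = 1 := by
    rw [← ENNReal.ofReal_coe_nnreal, ← ENNReal.ofReal_mul (NNReal.coe_nonneg B),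
      abs_of_nonneg (inv_nonneg.mpr (NNReal.coe_nonneg B))]
    have : (B : ℝ) * (B : ℝ)⁻¹ = 1 := mul_inv_cancel₀ hB0
    rw [this, ENNReal.ofReal_one]
  rw [h3, one_smul]

theorem mom_scale {ν : Measure ℝ} {B G : ℝ≥0}
    (h : (B : ℝ≥0∞) * ∫⁻ x, ‖x‖ₑ ∂ν ≤ G) :
    ∫⁻ x, ‖x‖ₑ ∂(ν.map fun x => (B : ℝ) * x) ≤ G := by
  rw [lintegral_map measurable_enorm (measurable_const_mul _)]
  refine le_trans (le_of_eq ?_) h
  rw [← lintegral_const_mul _ measurable_enorm]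
  refine lintegral_congr fun x => ?_
  simp only [enorm_mul]
  congr 1
  exact (Real.enorm_of_nonneg (NNReal.coe_nonneg B)).trans (ENNReal.ofReal_coe_nnreal)

/-- Exponential sums with shared factors, general laws. -/
theorem law_gen [NeZero k] [NeZero t] {n : ℕ} {al : Fin k → Fin q → ℕ}
    (hal : ∀ i, ∑ j, al i j ≤ n) {c a : Fin k ⊕ Fin q → Fin t → ℝ} (hc : ∀ b s, c b s ≠ 0)
    (ν : Fin k ⊕ Fin q → Fin t → Measure ℝ)
    [∀ b s, IsProbabilityMeasure (ν b s)] (G : ℝ≥0)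
    (hν : ∀ b s, ∃ B : ℝ≥0, ν b s ≤ (B : ℝ≥0∞) • (volume : Measure ℝ) ∧
      (B : ℝ≥0∞) * ∫⁻ x, ‖x‖ₑ ∂(ν b s) ≤ G) :
    ∫⁻ v, (({y : ℝ | FF 0 0 al c a v y = 0}.encard : ℕ∞) : ℝ≥0∞) ∂(PP ν) ≤
      66 * (k : ℝ≥0∞) ^ 2 * ((n : ℝ≥0∞) + 1) ^ 2 * (t : ℝ≥0∞) ^ 3 * G * (1 + t * G) := by
  choose B hB hA using hν
  have hB0 : ∀ b s, (B b s : ℝ) ≠ 0 := fun b s => dens_pos (hB b s)
  have hprob : ∀ b s, IsProbabilityMeasure ((ν b s).map fun x => (B b s : ℝ) * x) := fun b s =>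
    Measure.isProbabilityMeasure_map (measurable_const_mul _).aemeasurable
  rw [scale_count 0 0 al c a ν (fun b s => (B b s : ℝ)) hB0]
  refine (main_raw Pool.Agent.T9h48.TA.sMeas sRice' sFixP' sFixQ' Pool.Agent.T9h95.TA.sLogD
    Pool.Agent.T9h67.TA.sMom Pool.Agent.T9h95.TA.sKap Pool.Agent.T9h53.TA.sDrift
    (n := n) (be := 0) (by simp) hal 0 one_pos (fun b s => div_ne_zero (hc b s) (hB0 b s)) _ G 1
    (fun b s => ?_) (fun b s => mom_scale (hA b s))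
    (Filter.Eventually.of_forall fun v => good_zero zero_le_one 0 al _ a v)).trans ?_
  · rw [ENNReal.coe_one, one_smul]
    exact dens_scale (hB b s)
  · rw [if_pos rfl, zero_add]
    exact num_bound k n t (Nat.one_le_iff_ne_zero.mpr (NeZero.ne k))
      (Nat.one_le_iff_ne_zero.mpr (NeZero.ne t)) G

/-- Exponential sums with shared factors and a deterministic product, bounded laws. -/
theorem law_bdd [NeZero k] [NeZero t] {n : ℕ} (c0 : ℝ) {be : Fin q → ℕ}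
    (hbe : ∑ j, be j ≤ n + 1) {al : Fin k → Fin q → ℕ}
    (hal : ∀ i, ∑ j, al i j ≤ n) {c a : Fin k ⊕ Fin q → Fin t → ℝ} (hc : ∀ b s, c b s ≠ 0)
    (ν : Fin k ⊕ Fin q → Fin t → Measure ℝ)
    [∀ b s, IsProbabilityMeasure (ν b s)] (G : ℝ≥0)
    (hν : ∀ b s, ∃ B : ℝ≥0, ν b s ≤ (B : ℝ≥0∞) • (volume : Measure ℝ) ∧
      ∀ᵐ x ∂(ν b s), (B : ℝ) * |x| ≤ G) :
    ∫⁻ v, (({y : ℝ | FF c0 be al c a v y = 0}.encard : ℕ∞) : ℝ≥0∞) ∂(PP ν) ≤
      132 * (k : ℝ≥0∞) ^ 2 * ((n : ℝ≥0∞) + 1) ^ 2 * (t : ℝ≥0∞) ^ 3 * G * (1 + t * G) := by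
  choose B hB hA using hν
  have hB0 : ∀ b s, (B b s : ℝ) ≠ 0 := fun b s => dens_pos (hB b s)
  have hprob : ∀ b s, IsProbabilityMeasure ((ν b s).map fun x => (B b s : ℝ) * x) := fun b s =>
    Measure.isProbabilityMeasure_map (measurable_const_mul _).aemeasurable
  have hle : ∀ b s, (ν b s).map (fun x => (B b s : ℝ) * x) ≤ (volume : Measure ℝ) := fun b s =>
    dens_scale (hB b s)
  have hbd : ∀ b s, ∀ᵐ x ∂((ν b s).map fun x => (B b s : ℝ) * x), |x| ≤ (G : ℝ) := by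
    intro b s
    have hms : MeasurableSet {x : ℝ | |x| ≤ (G : ℝ)} :=
      (isClosed_le continuous_abs continuous_const).measurableSet
    refine (ae_map_iff (measurable_const_mul _).aemeasurable hms).mpr ?_
    filter_upwards [hA b s] with x hx
    rw [abs_mul, abs_of_nonneg (NNReal.coe_nonneg (B b s))]
    exact hx
  have hmom : ∀ b s, ∫⁻ x, ‖x‖ₑ ∂((ν b s).map fun x => (B b s : ℝ) * x) ≤ G := by
    intro b s
    calc ∫⁻ x, ‖x‖ₑ ∂((ν b s).map fun x => (B b s : ℝ) * x)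
        ≤ ∫⁻ _x, (G : ℝ≥0∞) ∂((ν b s).map fun x => (B b s : ℝ) * x) := by
          refine lintegral_mono_ae ?_
          filter_upwards [hbd b s] with x hx
          rw [Real.enorm_eq_ofReal_abs, ← ENNReal.ofReal_coe_nnreal]
          exact ENNReal.ofReal_le_ofReal hx
      _ = G := by rw [lintegral_const, measure_univ, mul_one]
  -- positivity of `G`
  have hG0 : 0 < (G : ℝ) := by
    rcases (NNReal.coe_nonneg G).lt_or_eq with h | h
    · exact h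
    · exfalso
      have hz : ∀ᵐ x ∂((ν (Sum.inl 0) 0).map fun x => (B (Sum.inl 0) 0 : ℝ) * x),
          x ∈ ({0} : Set ℝ) := by
        filter_upwards [hbd (Sum.inl 0) 0] with x hx
        rw [← h] at hx
        exact abs_nonpos_iff.mp hx
      have h2 : ((ν (Sum.inl 0) 0).map fun x => (B (Sum.inl 0) 0 : ℝ) * x) {0} = 1 :=
        (mem_ae_iff_prob_eq_one (measurableSet_singleton 0)).mp hz
      have h4 := hle (Sum.inl 0) 0 {(0 : ℝ)}
      rw [h2, measure_singleton] at h4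
      exact absurd h4 (by simp)
  have hK : 0 < (k : ℝ) * ((t : ℝ) * (G : ℝ)) := by
    have h1 : (0 : ℝ) < k := by exact_mod_cast Nat.pos_of_ne_zero (NeZero.ne k)
    have h2 : (0 : ℝ) < t := by exact_mod_cast Nat.pos_of_ne_zero (NeZero.ne t)
    positivity
  have hae : ∀ᵐ v ∂(PP fun b s => (ν b s).map fun x => (B b s : ℝ) * x),
      ∀ b s, |v b s| ≤ (G : ℝ) := by
    rw [ae_all_iff]
    intro b
    rw [ae_all_iff]
    intro s
    have h1 := (Measure.quasiMeasurePreserving_eval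
      (μ := fun s => (ν b s).map fun x => (B b s : ℝ) * x) s).ae (hbd b s)
    exact (Measure.quasiMeasurePreserving_eval
      (μ := fun b => Measure.pi fun s => (ν b s).map fun x => (B b s : ℝ) * x) b).ae h1
  rw [scale_count c0 be al c a ν (fun b s => (B b s : ℝ)) hB0]
  refine (main_raw Pool.Agent.T9h48.TA.sMeas sRice' sFixP' sFixQ' Pool.Agent.T9h95.TA.sLogD
    Pool.Agent.T9h67.TA.sMom Pool.Agent.T9h95.TA.sKap Pool.Agent.T9h53.TA.sDrift
    (n := n) hbe hal c0 hK (fun b s => div_ne_zero (hc b s) (hB0 b s)) _ G 1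
    (fun b s => ?_) hmom
    (hae.mono fun v hv => good_of_bdd hG0.le c0 be al _ a v hv)).trans ?_
  · rw [ENNReal.coe_one, one_smul]
    exact hle b s
  · refine le_trans ?_ (num_bound' k n t (Nat.one_le_iff_ne_zero.mpr (NeZero.ne k))
      (Nat.one_le_iff_ne_zero.mpr (NeZero.ne t)) G)
    gcongr
    split_ifs
    · exact zero_le
    · exact le_rfl

end asm5

end Pool.Agent.T9h20.TC
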