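import Pool.Agent.T9h20.TC.Asm5

/-!
# The smoothed real tau-conjecture, one deterministic product: polynomials
-/

set_option autoImplicit false

open MeasureTheory Set ProbabilityTheory
open scoped ENNReal NNReal

namespace Pool.Agent.T9h20.TC

open Pool.Agent.T9h20.TA (mon fn PP isProb_PP noise)

section asm6

variable {k q t : ℕ}

/-- The value of one sparse polynomial. -/
noncomputable def sv (e : Fin k ⊕ Fin q → Fin t → ℕ) (w : Fin k ⊕ Fin q → Fin t → ℝ)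
    (b : Fin k ⊕ Fin q) (x : ℝ) : ℝ := ∑ s, w b s * x ^ e b s

/-- The value at `x`. -/
noncomputable def ev (c0 : ℝ) (be : Fin q → ℕ) (al : Fin k → Fin q → ℕ)
    (e : Fin k ⊕ Fin q → Fin t → ℕ) (w : Fin k ⊕ Fin q → Fin t → ℝ) (x : ℝ) : ℝ :=
  c0 * ∏ j, sv e w (Sum.inr j) x ^ be j +
    ∑ i, sv e w (Sum.inl i) x * ∏ j, sv e w (Sum.inr j) x ^ al i j

theorem continuous_ev (c0 : ℝ) (be : Fin q → ℕ) (al : Fin k → Fin q → ℕ)
    (e : Fin k ⊕ Fin q → Fin t → ℕ) :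
    Continuous fun p : (Fin k ⊕ Fin q → Fin t → ℝ) × ℝ => ev c0 be al e p.1 p.2 := by
  unfold ev sv
  fun_prop

theorem measurable_count_ev (c0 : ℝ) (be : Fin q → ℕ) (al : Fin k → Fin q → ℕ)
    (e : Fin k ⊕ Fin q → Fin t → ℕ) :
    Measurable fun u : Fin k ⊕ Fin q → Fin t → ℝ =>
      (({x : ℝ | ev c0 be al e u x = 0}.encard : ℕ∞) : ℝ≥0∞) := by
  have h := Pool.Agent.T9h48.TA.sMeas (Fin k ⊕ Fin q → Fin t → ℝ)
    {p | ev c0 be al e p.1 p.2 = 0} Set.univ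
    (isClosed_eq (continuous_ev c0 be al e) continuous_const) isOpen_univ
  convert h using 5 with v
  ext y
  simp

theorem sv_exp (e : Fin k ⊕ Fin q → Fin t → ℕ) (u : Fin k ⊕ Fin q → Fin t → ℝ)
    (b : Fin k ⊕ Fin q) (y : ℝ) : sv e u b (Real.exp y) =
      fn (fun _ => 1) (fun s => (e b s : ℝ)) (u b) y := by
  unfold sv fn mon
  refine Finset.sum_congr rfl fun s _ => ?_
  rw [one_mul, ← Real.exp_nat_mul]

theorem sv_neg_exp (e : Fin k ⊕ Fin q → Fin t → ℕ) (u : Fin k ⊕ Fin q → Fin t → ℝ)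
    (b : Fin k ⊕ Fin q) (y : ℝ) : sv e u b (-Real.exp y) =
      fn (fun s => (-1) ^ e b s) (fun s => (e b s : ℝ)) (u b) y := by
  unfold sv fn mon
  refine Finset.sum_congr rfl fun s _ => ?_
  rw [neg_pow, ← Real.exp_nat_mul]

theorem ev_exp (c0 : ℝ) (be : Fin q → ℕ) (al : Fin k → Fin q → ℕ)
    (e : Fin k ⊕ Fin q → Fin t → ℕ) (u : Fin k ⊕ Fin q → Fin t → ℝ)
    (y : ℝ) : ev c0 be al e u (Real.exp y) =
      FF c0 be al (fun _ _ => 1) (fun b s => (e b s : ℝ)) u y := by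
  unfold ev FF PR
  simp only [sv_exp]

theorem ev_neg_exp (c0 : ℝ) (be : Fin q → ℕ) (al : Fin k → Fin q → ℕ)
    (e : Fin k ⊕ Fin q → Fin t → ℕ) (u : Fin k ⊕ Fin q → Fin t → ℝ)
    (y : ℝ) : ev c0 be al e u (-Real.exp y) =
      FF c0 be al (fun b s => (-1) ^ e b s) (fun b s => (e b s : ℝ)) u y := by
  unfold ev FF PR
  simp only [sv_neg_exp]

theorem count_ev_le (c0 : ℝ) (be : Fin q → ℕ) (al : Fin k → Fin q → ℕ)
    (e : Fin k ⊕ Fin q → Fin t → ℕ) (u : Fin k ⊕ Fin q → Fin t → ℝ) :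
    (({x : ℝ | ev c0 be al e u x = 0}.encard : ℕ∞) : ℝ≥0∞) ≤
      1 + ((({y : ℝ | FF c0 be al (fun _ _ => 1) (fun b s => (e b s : ℝ)) u y =
        0}.encard : ℕ∞) : ℝ≥0∞) +
      (({y : ℝ | FF c0 be al (fun b s => (-1) ^ e b s) (fun b s => (e b s : ℝ))
        u y = 0}.encard : ℕ∞) : ℝ≥0∞)) := by
  have hsub : {x : ℝ | ev c0 be al e u x = 0} ⊆ {0} ∪
      (Real.exp '' {y : ℝ | FF c0 be al (fun _ _ => 1) (fun b s => (e b s : ℝ)) u y = 0} ∪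
      (fun y => -Real.exp y) '' {y : ℝ | FF c0 be al (fun b s => (-1) ^ e b s)
        (fun b s => (e b s : ℝ)) u y = 0}) := by
    intro x hx
    rcases lt_trichotomy x 0 with h | h | h
    · right; right
      refine ⟨Real.log (-x), ?_, ?_⟩
      · have h1 := ev_neg_exp c0 be al e u (Real.log (-x))
        rw [Real.exp_log (neg_pos.mpr h), neg_neg] at h1
        exact h1.symm.trans hx
      · simp only [Real.exp_log (neg_pos.mpr h), neg_neg]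
    · left
      exact h
    · right; left
      refine ⟨Real.log x, ?_, Real.exp_log h⟩
      have h1 := ev_exp c0 be al e u (Real.log x)
      rw [Real.exp_log h] at h1
      exact h1.symm.trans hx
  have h1 := (Set.encard_le_encard hsub).trans ((Set.encard_union_le _ _).trans
    (add_le_add (Set.encard_singleton _).le ((Set.encard_union_le _ _).trans
      (add_le_add (Set.encard_image_le _ _) (Set.encard_image_le _ _)))))
  have h2 := ENat.toENNReal_mono h1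
  simpa only [ENat.toENNReal_add, ENat.toENNReal_one] using h2

/-- The joint law. -/
theorem joint_law {Ω : Type*} [MeasurableSpace Ω] (P : Measure Ω) [IsProbabilityMeasure P]
    (w : Fin k ⊕ Fin q → Fin t → Ω → ℝ) (hw : ∀ b s, Measurable (w b s))
    (hind : iIndepFun (fun p : (Fin k ⊕ Fin q) × Fin t => w p.1 p.2) P) :
    P.map (fun ω (b : Fin k ⊕ Fin q) (s : Fin t) => w b s ω) =
      PP fun b s => P.map (w b s) := by
  have hprob : ∀ b s, IsProbabilityMeasure (P.map (w b s)) := fun b s =>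
    Measure.isProbabilityMeasure_map (hw b s).aemeasurable
  have h2 := iIndepFun.map_fun_eq_pi_map
    (f := fun p : (Fin k ⊕ Fin q) × Fin t => w p.1 p.2)
    (fun p => (hw p.1 p.2).aemeasurable) hind
  have h3 := Measure.infinitePi_map_curry (ι := Fin k ⊕ Fin q) (κ := Fin t)
    (fun b s => P.map (w b s))
  rw [Measure.infinitePi_eq_pi, Measure.infinitePi_eq_pi, ← h2] at h3
  have h4 : (fun i => Measure.infinitePi fun s => P.map (w i s)) =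
      fun i => Measure.pi fun s => P.map (w i s) := by
    funext i
    exact Measure.infinitePi_eq_pi _
  rw [h4] at h3
  unfold PP
  have hm2 : Measurable fun ω (p : (Fin k ⊕ Fin q) × Fin t) => w p.1 p.2 ω :=
    measurable_pi_lambda _ fun p => hw p.1 p.2
  rw [← h3, Measure.map_map (MeasurableEquiv.measurable _) hm2]
  rfl

theorem FF_zero (be : Fin q → ℕ) (al : Fin k → Fin q → ℕ)
    (c a v : Fin k ⊕ Fin q → Fin t → ℝ) : FF 0 be al c a v = FF 0 0 al c a v := by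
  funext y
  unfold FF
  rw [zero_mul, zero_mul]

/-- From exponential sums to polynomials. -/
theorem from_exp {Ω : Type*} [MeasurableSpace Ω] (P : Measure Ω) [IsProbabilityMeasure P]
    (c0 : ℝ) (be : Fin q → ℕ) (al : Fin k → Fin q → ℕ)
    (e : Fin k ⊕ Fin q → Fin t → ℕ)
    (w : Fin k ⊕ Fin q → Fin t → Ω → ℝ) (hw : ∀ b s, Measurable (w b s)) (X : ℝ≥0∞)
    (hX : ∀ c : Fin k ⊕ Fin q → Fin t → ℝ, (∀ b s, c b s ≠ 0) →
      ∫⁻ ω, (({y : ℝ | FF c0 be al c (fun b s => (e b s : ℝ)) (fun b s => w b s ω) y =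
        0}.encard : ℕ∞) : ℝ≥0∞) ∂P ≤ X) :
    ∫⁻ ω, (({x : ℝ | ev c0 be al e (fun b s => w b s ω) x = 0}.encard : ℕ∞) : ℝ≥0∞) ∂P ≤
      1 + (X + X) := by
  have hJ : Measurable fun ω => fun (b : Fin k ⊕ Fin q) (s : Fin t) => w b s ω :=
    measurable_pi_lambda _ fun b => measurable_pi_lambda _ fun s => hw b s
  calc ∫⁻ ω, (({x : ℝ | ev c0 be al e (fun b s => w b s ω) x = 0}.encard : ℕ∞) : ℝ≥0∞) ∂P
      ≤ ∫⁻ ω, (1 + ((({y : ℝ | FF c0 be al (fun _ _ => 1) (fun b s => (e b s : ℝ))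
        (fun b s => w b s ω) y = 0}.encard : ℕ∞) : ℝ≥0∞) +
      (({y : ℝ | FF c0 be al (fun b s => (-1) ^ e b s) (fun b s => (e b s : ℝ))
        (fun b s => w b s ω) y = 0}.encard : ℕ∞) : ℝ≥0∞))) ∂P :=
        lintegral_mono fun ω => count_ev_le c0 be al e fun b s => w b s ω
    _ = 1 + (∫⁻ ω, (({y : ℝ | FF c0 be al (fun _ _ => 1) (fun b s => (e b s : ℝ))
        (fun b s => w b s ω) y = 0}.encard : ℕ∞) : ℝ≥0∞) ∂P +
      ∫⁻ ω, (({y : ℝ | FF c0 be al (fun b s => (-1) ^ e b s) (fun b s => (e b s : ℝ))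
        (fun b s => w b s ω) y = 0}.encard : ℕ∞) : ℝ≥0∞) ∂P) := by
        have hc1 : Measurable fun ω => (({y : ℝ | FF c0 be al (fun _ _ => 1)
            (fun b s => (e b s : ℝ)) (fun b s => w b s ω) y = 0}.encard :
            ℕ∞) : ℝ≥0∞) := (measurable_count _ _ _ _ _).comp hJ
        rw [lintegral_add_left measurable_const, lintegral_const, measure_univ, mul_one,
          lintegral_add_left hc1]
    _ ≤ 1 + (X + X) := by
        gcongr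
        · exact hX _ fun _ _ => one_ne_zero
        · exact hX _ fun _ _ => pow_ne_zero _ (by norm_num)

/-- Shared factors, general laws. -/
theorem main_gen {Ω : Type*} [MeasurableSpace Ω] (P : Measure Ω) [IsProbabilityMeasure P]
    {m : ℕ} (hk : 1 ≤ k) (ht : 1 ≤ t) (be : Fin q → ℕ) (al : Fin k → Fin q → ℕ)
    (hal : ∀ i, 1 + ∑ j, al i j ≤ m)
    (e : Fin k ⊕ Fin q → Fin t → ℕ)
    (w : Fin k ⊕ Fin q → Fin t → Ω → ℝ) (hw : ∀ b s, Measurable (w b s))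
    (hind : iIndepFun (fun p : (Fin k ⊕ Fin q) × Fin t => w p.1 p.2) P)
    (G : ℝ≥0) (hG : ∀ b s, ∃ B : ℝ≥0, P.map (w b s) ≤ (B : ℝ≥0∞) • (volume : Measure ℝ) ∧
      (B : ℝ≥0∞) * ∫⁻ ω, ‖w b s ω‖ₑ ∂P ≤ G) :
    ∫⁻ ω, (({x : ℝ | ev 0 be al e (fun b s => w b s ω) x = 0}.encard : ℕ∞) : ℝ≥0∞) ∂P ≤
      1 + 132 * (k : ℝ≥0∞) ^ 2 * (m : ℝ≥0∞) ^ 2 * (t : ℝ≥0∞) ^ 3 * G * (1 + t * G) := by
  have : NeZero k := ⟨by omega⟩
  have : NeZero t := ⟨by omega⟩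
  obtain ⟨n, rfl⟩ : ∃ n, m = n + 1 := ⟨m - 1, by have := hal 0; omega⟩
  have hal' : ∀ i, ∑ j, al i j ≤ n := fun i => by have := hal i; omega
  have hprob : ∀ b s, IsProbabilityMeasure (P.map (w b s)) :=
    fun b s => Measure.isProbabilityMeasure_map (hw b s).aemeasurable
  have hν : ∀ b s, ∃ B : ℝ≥0,
      P.map (w b s) ≤ (B : ℝ≥0∞) • (volume : Measure ℝ) ∧
      (B : ℝ≥0∞) * ∫⁻ x, ‖x‖ₑ ∂(P.map (w b s)) ≤ G := by
    intro b s
    obtain ⟨B, h1, h2⟩ := hG b s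
    refine ⟨B, h1, ?_⟩
    rw [lintegral_map measurable_enorm (hw _ _)]
    exact h2
  have hJ : Measurable fun ω => fun (b : Fin k ⊕ Fin q) (s : Fin t) => w b s ω :=
    measurable_pi_lambda _ fun b => measurable_pi_lambda _ fun s => hw b s
  refine (from_exp P 0 be al e w hw
    (66 * (k : ℝ≥0∞) ^ 2 * ((n : ℝ≥0∞) + 1) ^ 2 * (t : ℝ≥0∞) ^ 3 * G * (1 + t * G))
    fun c hc => ?_).trans (le_of_eq ?_)
  · have h := law_gen hal' hc (a := fun b s => (e b s : ℝ)) (fun b s => P.map (w b s)) G hν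
    rw [← joint_law P w hw hind, lintegral_map (measurable_count _ _ _ _ _) hJ] at h
    simp only [FF_zero be al]
    exact h
  · push_cast
    ring

/-- Shared factors and a deterministic product, bounded laws. -/
theorem main_bdd {Ω : Type*} [MeasurableSpace Ω] (P : Measure Ω) [IsProbabilityMeasure P]
    {m : ℕ} (hk : 1 ≤ k) (ht : 1 ≤ t) (c0 : ℝ) (be : Fin q → ℕ) (hbe : ∑ j, be j ≤ m)
    (al : Fin k → Fin q → ℕ) (hal : ∀ i, 1 + ∑ j, al i j ≤ m)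
    (e : Fin k ⊕ Fin q → Fin t → ℕ)
    (w : Fin k ⊕ Fin q → Fin t → Ω → ℝ) (hw : ∀ b s, Measurable (w b s))
    (hind : iIndepFun (fun p : (Fin k ⊕ Fin q) × Fin t => w p.1 p.2) P)
    (G : ℝ≥0) (hG : ∀ b s, ∃ B : ℝ≥0, P.map (w b s) ≤ (B : ℝ≥0∞) • (volume : Measure ℝ) ∧
      ∀ᵐ ω ∂P, (B : ℝ) * |w b s ω| ≤ G) :
    ∫⁻ ω, (({x : ℝ | ev c0 be al e (fun b s => w b s ω) x = 0}.encard : ℕ∞) : ℝ≥0∞) ∂P ≤
      1 + 264 * (k : ℝ≥0∞) ^ 2 * (m : ℝ≥0∞) ^ 2 * (t : ℝ≥0∞) ^ 3 * G * (1 + t * G) := by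
  have : NeZero k := ⟨by omega⟩
  have : NeZero t := ⟨by omega⟩
  obtain ⟨n, rfl⟩ : ∃ n, m = n + 1 := ⟨m - 1, by have := hal 0; omega⟩
  have hal' : ∀ i, ∑ j, al i j ≤ n := fun i => by have := hal i; omega
  have hprob : ∀ b s, IsProbabilityMeasure (P.map (w b s)) :=
    fun b s => Measure.isProbabilityMeasure_map (hw b s).aemeasurable
  have hν : ∀ b s, ∃ B : ℝ≥0,
      P.map (w b s) ≤ (B : ℝ≥0∞) • (volume : Measure ℝ) ∧
      ∀ᵐ x ∂(P.map (w b s)), (B : ℝ) * |x| ≤ G := by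
    intro b s
    obtain ⟨B, h1, h2⟩ := hG b s
    refine ⟨B, h1, ?_⟩
    have hms : MeasurableSet {x : ℝ | (B : ℝ) * |x| ≤ G} :=
      (isClosed_le (continuous_const.mul continuous_abs) continuous_const).measurableSet
    exact (ae_map_iff (hw b s).aemeasurable hms).mpr h2
  have hJ : Measurable fun ω => fun (b : Fin k ⊕ Fin q) (s : Fin t) => w b s ω :=
    measurable_pi_lambda _ fun b => measurable_pi_lambda _ fun s => hw b s
  refine (from_exp P c0 be al e w hw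
    (132 * (k : ℝ≥0∞) ^ 2 * ((n : ℝ≥0∞) + 1) ^ 2 * (t : ℝ≥0∞) ^ 3 * G * (1 + t * G))
    fun c hc => ?_).trans (le_of_eq ?_)
  · have h := law_bdd c0 hbe hal' hc (a := fun b s => (e b s : ℝ))
      (fun b s => P.map (w b s)) G hν
    rw [← joint_law P w hw hind, lintegral_map (measurable_count _ _ _ _ _) hJ] at h
    exact h
  · push_cast
    ring

/-- Law and bound of `a + τ * ξ`, `ξ` uniform on `[-1, 1]`. -/
theorem noise' {Ω : Type*} [MeasurableSpace Ω] (P : Measure Ω) [IsProbabilityMeasure P]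
    (ξ : Ω → ℝ) (hξ : Measurable ξ)
    (hlaw : P.map ξ = (2 : ℝ≥0∞)⁻¹ • (volume : Measure ℝ).restrict (Set.Icc (-1) 1))
    (a τ : ℝ) (hτ : 0 < τ) (R : ℝ≥0) (ha : |a| ≤ R * τ) :
    ∃ B : ℝ≥0, P.map (fun ω => a + τ * ξ ω) ≤ (B : ℝ≥0∞) • (volume : Measure ℝ) ∧
      ∀ᵐ ω ∂P, (B : ℝ) * |a + τ * ξ ω| ≤ ((R + 1) / 2 : ℝ≥0) := by
  have hτ0 : τ ≠ 0 := hτ.ne'
  have hf : Measurable fun x : ℝ => a + τ * x := by fun_prop
  have hmap : P.map (fun ω => a + τ * ξ ω) = (P.map ξ).map fun x => a + τ * x := by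
    rw [Measure.map_map hf hξ]
    rfl
  have hle : P.map ξ ≤ (2 : ℝ≥0∞)⁻¹ • (volume : Measure ℝ) := by
    rw [hlaw]
    refine Measure.le_iff.mpr fun S _ => ?_
    rw [Measure.smul_apply, Measure.smul_apply, smul_eq_mul, smul_eq_mul]
    gcongr
    exact Measure.restrict_le_self
  have hvol : (volume : Measure ℝ).map (fun x => a + τ * x) =
      ENNReal.ofReal |τ⁻¹| • (volume : Measure ℝ) := by
    have h1 : (fun x : ℝ => a + τ * x) = (fun x => a + x) ∘ fun x => τ * x := rfl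
    rw [h1, ← Measure.map_map (measurable_const_add a) (measurable_const_mul τ),
      Real.map_volume_mul_left hτ0, Measure.map_smul, map_add_left_eq_self]
  refine ⟨(2 : ℝ≥0)⁻¹ * Real.toNNReal |τ⁻¹|, ?_, ?_⟩
  · rw [hmap]
    refine (Measure.map_mono hle hf).trans (le_of_eq ?_)
    rw [Measure.map_smul, hvol, smul_smul, ENNReal.coe_mul, ENNReal.coe_inv (by norm_num)]
    rfl
  · have h1 : ∀ᵐ x ∂(P.map ξ), x ∈ Set.Icc (-1 : ℝ) 1 := by
      rw [hlaw]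
      exact Measure.ae_smul_measure (ae_restrict_mem measurableSet_Icc) _
    have h2 : ∀ᵐ ω ∂P, ξ ω ∈ Set.Icc (-1 : ℝ) 1 :=
      (ae_map_iff hξ.aemeasurable measurableSet_Icc).mp h1
    filter_upwards [h2] with ω hω
    have h3 : |ξ ω| ≤ 1 := abs_le.mpr hω
    have h4 : |a + τ * ξ ω| ≤ (R + 1) * τ := by
      refine (abs_add_le _ _).trans ?_
      rw [abs_mul, abs_of_pos hτ]
      nlinarith
    push_cast
    rw [Real.coe_toNNReal _ (abs_nonneg _), abs_of_pos (inv_pos.mpr hτ)]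
    calc (2 : ℝ)⁻¹ * τ⁻¹ * |a + τ * ξ ω| ≤ (2 : ℝ)⁻¹ * τ⁻¹ * ((R + 1) * τ) := by gcongr
      _ = (R + 1) / 2 := by field_simp

/-- The numerical bound. -/
theorem num2' (k m t : ℕ) (ht : 1 ≤ t) (R : ℝ≥0) :
    (1 : ℝ≥0∞) + 264 * (k : ℝ≥0∞) ^ 2 * (m : ℝ≥0∞) ^ 2 * (t : ℝ≥0∞) ^ 3 *
        (((R + 1) / 2 : ℝ≥0) : ℝ≥0∞) * (1 + t * (((R + 1) / 2 : ℝ≥0) : ℝ≥0∞)) ≤
      1 + 198 * (k : ℝ≥0∞) ^ 2 * (m : ℝ≥0∞) ^ 2 * (t : ℝ≥0∞) ^ 4 *
        ((R : ℝ≥0∞) + 1) ^ 2 := by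
  have h : (1 : ℝ≥0) + 264 * (k : ℝ≥0) ^ 2 * (m : ℝ≥0) ^ 2 * (t : ℝ≥0) ^ 3 *
        ((R + 1) / 2) * (1 + t * ((R + 1) / 2)) ≤
      1 + 198 * (k : ℝ≥0) ^ 2 * (m : ℝ≥0) ^ 2 * (t : ℝ≥0) ^ 4 * (R + 1) ^ 2 := by
    rw [← NNReal.coe_le_coe]
    push_cast
    have hR : (0 : ℝ) ≤ R := R.2
    have ht' : (1 : ℝ) ≤ t := by exact_mod_cast ht
    have h1 : (1 : ℝ) + t * ((R + 1) / 2) ≤ 3 * t * ((R + 1) / 2) := by
      nlinarith [mul_nonneg (by linarith : (0 : ℝ) ≤ (t : ℝ) - 1) hR]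
    have h2 : 264 * (k : ℝ) ^ 2 * (m : ℝ) ^ 2 * (t : ℝ) ^ 3 * ((R + 1) / 2) *
        (1 + t * ((R + 1) / 2)) ≤ 264 * (k : ℝ) ^ 2 * (m : ℝ) ^ 2 * (t : ℝ) ^ 3 *
        ((R + 1) / 2) * (3 * t * ((R + 1) / 2)) := by
      gcongr
    have h3 : 264 * (k : ℝ) ^ 2 * (m : ℝ) ^ 2 * (t : ℝ) ^ 3 *
        ((R + 1) / 2) * (3 * t * ((R + 1) / 2)) =
        198 * (k : ℝ) ^ 2 * (m : ℝ) ^ 2 * (t : ℝ) ^ 4 * (R + 1) ^ 2 := by ring
    linarith
  have h' := ENNReal.coe_le_coe.mpr h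
  push_cast at h' ⊢
  exact h'

/-- Smoothed version. -/
theorem main_smooth {Ω : Type*} [MeasurableSpace Ω] (P : Measure Ω) [IsProbabilityMeasure P]
    {m : ℕ} (hk : 1 ≤ k) (ht : 1 ≤ t) (c0 : ℝ) (be : Fin q → ℕ) (hbe : ∑ j, be j ≤ m)
    (al : Fin k → Fin q → ℕ) (hal : ∀ i, 1 + ∑ j, al i j ≤ m)
    (e : Fin k ⊕ Fin q → Fin t → ℕ) (a τ : Fin k ⊕ Fin q → Fin t → ℝ) (R : ℝ≥0)
    (hτ : ∀ b s, 0 < τ b s) (ha : ∀ b s, |a b s| ≤ R * τ b s)
    (ξ : Fin k ⊕ Fin q → Fin t → Ω → ℝ) (hξ : ∀ b s, Measurable (ξ b s))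
    (hind : iIndepFun (fun p : (Fin k ⊕ Fin q) × Fin t => ξ p.1 p.2) P)
    (hlaw : ∀ b s, P.map (ξ b s) =
      (2 : ℝ≥0∞)⁻¹ • (volume : Measure ℝ).restrict (Set.Icc (-1) 1)) :
    ∫⁻ ω, (({x : ℝ | ev c0 be al e (fun b s => a b s + τ b s * ξ b s ω) x = 0}.encard :
        ℕ∞) : ℝ≥0∞) ∂P ≤
      1 + 198 * (k : ℝ≥0∞) ^ 2 * (m : ℝ≥0∞) ^ 2 * (t : ℝ≥0∞) ^ 4 *
        ((R : ℝ≥0∞) + 1) ^ 2 := by
  refine (main_bdd P hk ht c0 be hbe al hal e (fun b s ω => a b s + τ b s * ξ b s ω)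
    (fun b s => by have := hξ b s; fun_prop) ?_ ((R + 1) / 2)
    (fun b s => noise' P (ξ b s) (hξ b s) (hlaw b s) (a b s) (τ b s) (hτ b s) R
      (ha b s))).trans (num2' k m t ht R)
  exact hind.comp (fun p x => a p.1 p.2 + τ p.1 p.2 * x) (fun p => by fun_prop)

end asm6

end Pool.Agent.T9h20.TC
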