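import Pool.Agent.T9h20.TB.Asm4
import Pool.Agent.T9h20.TA.Spec3

/-!
# The smoothed real tau-conjecture: shared factors and one deterministic product

`F = c0 * ∏ j, g_j ^ (be j) + ∑ i, f_i * ∏ j, g_j ^ (al i j)`; the block of `f_i` is
`Sum.inl i`, that of `g_j` is `Sum.inr j`.
-/

set_option autoImplicit false

open MeasureTheory Set
open scoped ENNReal NNReal

namespace Pool.Agent.T9h20.TC

open Pool.Agent.T9h20.TA (mon fn dfn IsSel sel mx gg ta hh kap upd PP mon_ne hasDerivAt_mon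
  continuous_mon hasDerivAt_fn sel_unique mx_pos mon_le_mx abs_gg_le abs_gg_sel hh_sel fn_eq
  dfn_eq dfn_div continuous_mx deriv_own isSel_sel fn_update)
open Pool.Agent.T9h20.TB (continuous_fn₂ continuous_dfn₂ upd_same upd_ne upd_upd inr_ne
  continuous_upd)

section glob

variable {k q t : ℕ}

/-- A product of powers of shared factors. -/
noncomputable def PR (x : Fin q → ℕ) (c a v : Fin k ⊕ Fin q → Fin t → ℝ)
    (y : ℝ) : ℝ :=
  ∏ j : Fin q, fn (c (Sum.inr j)) (a (Sum.inr j)) (v (Sum.inr j)) y ^ x j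

/-- Its derivative. -/
noncomputable def dPR (x : Fin q → ℕ) (c a v : Fin k ⊕ Fin q → Fin t → ℝ)
    (y : ℝ) : ℝ :=
  ∑ j : Fin q, (∏ r ∈ Finset.univ.erase j,
      fn (c (Sum.inr r)) (a (Sum.inr r)) (v (Sum.inr r)) y ^ x r) *
    (x j * fn (c (Sum.inr j)) (a (Sum.inr j)) (v (Sum.inr j)) y ^ (x j - 1) *
      dfn (c (Sum.inr j)) (a (Sum.inr j)) (v (Sum.inr j)) y)

/-- The sum of products. -/
noncomputable def FF (c0 : ℝ) (be : Fin q → ℕ) (al : Fin k → Fin q → ℕ)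
    (c a v : Fin k ⊕ Fin q → Fin t → ℝ) (y : ℝ) : ℝ :=
  c0 * PR be c a v y +
    ∑ i, fn (c (Sum.inl i)) (a (Sum.inl i)) (v (Sum.inl i)) y * PR (al i) c a v y

/-- The derivative of `FF`. -/
noncomputable def dFF (c0 : ℝ) (be : Fin q → ℕ) (al : Fin k → Fin q → ℕ)
    (c a v : Fin k ⊕ Fin q → Fin t → ℝ) (y : ℝ) : ℝ :=
  c0 * dPR be c a v y +
    ∑ i, (dfn (c (Sum.inl i)) (a (Sum.inl i)) (v (Sum.inl i)) y * PR (al i) c a v y +
      fn (c (Sum.inl i)) (a (Sum.inl i)) (v (Sum.inl i)) y * dPR (al i) c a v y)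

theorem hasDerivAt_PR (x : Fin q → ℕ) (c a v : Fin k ⊕ Fin q → Fin t → ℝ)
    (y : ℝ) : HasDerivAt (PR x c a v) (dPR x c a v y) y := by
  have h := HasDerivAt.fun_finsetProd (u := (Finset.univ : Finset (Fin q)))
    (f := fun j : Fin q => fun y => fn (c (Sum.inr j)) (a (Sum.inr j)) (v (Sum.inr j)) y ^ x j)
    (f' := fun j : Fin q => x j * fn (c (Sum.inr j)) (a (Sum.inr j)) (v (Sum.inr j)) y ^
      (x j - 1) * dfn (c (Sum.inr j)) (a (Sum.inr j)) (v (Sum.inr j)) y) (x := y)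
    fun j _ => (hasDerivAt_fn _ _ _ _).fun_pow _
  refine h.congr_deriv ?_
  unfold dPR
  simp only [smul_eq_mul]

theorem hasDerivAt_FF (c0 : ℝ) (be : Fin q → ℕ) (al : Fin k → Fin q → ℕ)
    (c a v : Fin k ⊕ Fin q → Fin t → ℝ) (y : ℝ) :
    HasDerivAt (FF c0 be al c a v) (dFF c0 be al c a v y) y := by
  unfold FF dFF
  exact ((hasDerivAt_PR be c a v y).const_mul c0).add
    (HasDerivAt.fun_sum fun i _ => (hasDerivAt_fn _ _ _ _).mul (hasDerivAt_PR (al i) c a v y))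

theorem continuous_PR₂ (x : Fin q → ℕ) (c a : Fin k ⊕ Fin q → Fin t → ℝ) :
    Continuous fun p : (Fin k ⊕ Fin q → Fin t → ℝ) × ℝ => PR x c a p.1 p.2 := by
  unfold PR
  exact continuous_finsetProd _ fun j _ => (continuous_fn₂ c a (Sum.inr j)).pow _

theorem continuous_dPR₂ (x : Fin q → ℕ) (c a : Fin k ⊕ Fin q → Fin t → ℝ) :
    Continuous fun p : (Fin k ⊕ Fin q → Fin t → ℝ) × ℝ => dPR x c a p.1 p.2 := by
  unfold dPR
  refine continuous_finsetSum _ fun j _ => ?_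
  exact (continuous_finsetProd _ fun r _ => (continuous_fn₂ c a (Sum.inr r)).pow _).mul
    ((((continuous_fn₂ c a (Sum.inr j)).pow _).const_mul _).mul
      (continuous_dfn₂ c a (Sum.inr j)))

theorem continuous_FF₂ (c0 : ℝ) (be : Fin q → ℕ) (al : Fin k → Fin q → ℕ)
    (c a : Fin k ⊕ Fin q → Fin t → ℝ) :
    Continuous fun p : (Fin k ⊕ Fin q → Fin t → ℝ) × ℝ => FF c0 be al c a p.1 p.2 := by
  unfold FF
  exact ((continuous_PR₂ be c a).const_mul c0).add
    (continuous_finsetSum _ fun i _ => (continuous_fn₂ c a (Sum.inl i)).mul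
      (continuous_PR₂ (al i) c a))

theorem continuous_dFF₂ (c0 : ℝ) (be : Fin q → ℕ) (al : Fin k → Fin q → ℕ)
    (c a : Fin k ⊕ Fin q → Fin t → ℝ) :
    Continuous fun p : (Fin k ⊕ Fin q → Fin t → ℝ) × ℝ => dFF c0 be al c a p.1 p.2 := by
  unfold dFF
  refine ((continuous_dPR₂ be c a).const_mul c0).add (continuous_finsetSum _ fun i _ => ?_)
  exact ((continuous_dfn₂ c a (Sum.inl i)).mul (continuous_PR₂ (al i) c a)).add
    ((continuous_fn₂ c a (Sum.inl i)).mul (continuous_dPR₂ (al i) c a))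

/-! ### Changing one coefficient -/

theorem PR_upd (x : Fin q → ℕ) (c a v : Fin k ⊕ Fin q → Fin t → ℝ) (i : Fin k)
    (s : Fin t) (z : ℝ) :
    PR x c a (upd v (Sum.inl i) s z) = PR x c a v := by
  funext y
  unfold PR
  refine Finset.prod_congr rfl fun j _ => ?_
  rw [upd_ne (inr_ne i j)]

theorem dPR_upd (x : Fin q → ℕ) (c a v : Fin k ⊕ Fin q → Fin t → ℝ) (i : Fin k)
    (s : Fin t) (z : ℝ) :
    dPR x c a (upd v (Sum.inl i) s z) = dPR x c a v := by
  funext y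
  unfold dPR
  have h : ∀ r : Fin q, upd v (Sum.inl i) s z (Sum.inr r) = v (Sum.inr r) := fun r =>
    upd_ne (inr_ne i r) v s z
  simp only [h]

theorem FF_upd (c0 : ℝ) (be : Fin q → ℕ) (al : Fin k → Fin q → ℕ)
    (c a v : Fin k ⊕ Fin q → Fin t → ℝ) (i : Fin k) (s : Fin t) (x y : ℝ) :
    FF c0 be al c a (upd v (Sum.inl i) s x) y = FF c0 be al c a v y +
      (x - v (Sum.inl i) s) *
        (mon (c (Sum.inl i)) (a (Sum.inl i)) s y * PR (al i) c a v y) := by
  unfold FF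
  rw [← Finset.add_sum_erase _ _ (Finset.mem_univ i),
    ← Finset.add_sum_erase (Finset.univ) (fun l => fn (c (Sum.inl l)) (a (Sum.inl l))
      (v (Sum.inl l)) y * PR (al l) c a v y) (Finset.mem_univ i)]
  have h1 : ∑ l ∈ Finset.univ.erase i, fn (c (Sum.inl l)) (a (Sum.inl l))
      (upd v (Sum.inl i) s x (Sum.inl l)) y * PR (al l) c a (upd v (Sum.inl i) s x) y =
      ∑ l ∈ Finset.univ.erase i, fn (c (Sum.inl l)) (a (Sum.inl l)) (v (Sum.inl l)) y *
        PR (al l) c a v y := by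
    refine Finset.sum_congr rfl fun l hl => ?_
    have hne : (Sum.inl l : Fin k ⊕ Fin q) ≠ Sum.inl i := by
      intro h
      exact Finset.ne_of_mem_erase hl (Sum.inl.inj h)
    rw [upd_ne hne, PR_upd]
  rw [h1, PR_upd, PR_upd, upd_same, fn_update]
  ring

end glob

end Pool.Agent.T9h20.TC
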